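import Pool.Agent.H.MP_65d7a7_an.D

open Set Metric Filter Topology MeasureTheory
open scoped Real ENNReal

namespace Pool.Agent.H.MP_06dd87_an

lemma ann (a : ℂ) {r ρ : ℝ} (r0 : 0 < r) : IsPreconnected (ball a ρ \ closedBall a r) := by
  have : ball a ρ \ closedBall a r = (fun t : ℝ × ℝ => circleMap a t.1 t.2) '' (Ioo r ρ ×ˢ univ) := by
    ext z
    constructor
    · rintro ⟨h1, h2⟩
      refine ⟨(‖z - a‖, (z - a).arg), ⟨⟨not_le.1 fun e => h2 (mem_closedBall_iff_norm.2 e),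
        mem_ball_iff_norm.1 h1⟩, trivial⟩, ?_⟩
      simp [circleMap]
    · rintro ⟨t, ⟨⟨h1, h2⟩, -⟩, rfl⟩
      have e : ‖circleMap a t.1 t.2 - a‖ = t.1 := by simp [abs_of_pos (r0.trans h1)]
      exact ⟨mem_ball_iff_norm.2 (e ▸ h2), fun m => (mem_closedBall_iff_norm.1 m).not_gt (e ▸ h1)⟩
  rw [this]
  exact (isPreconnected_Ioo.prod isPreconnected_univ).image _ (by unfold circleMap; fun_prop)

lemma rem {U : Set ℂ} (o : IsOpen U) (c : IsPreconnected U) {a : ℂ} {r : ℝ} (r0 : 0 < r) (s : closedBall a r ⊆ U) :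
    IsPreconnected (U \ closedBall a r) := by
  obtain ⟨δ, δ0, hδ⟩ := (isCompact_closedBall a r).exists_thickening_subset_open o s
  rw [thickening_closedBall δ0 r0.le] at hδ
  have oV := o.sdiff (isClosed_closedBall (x := a) (ε := r))
  have key (u v : Set ℂ) (ou : IsOpen u) (ov : IsOpen v) (cv : U \ closedBall a r ⊆ u ∪ v)
      (dj : (U \ closedBall a r) ∩ (u ∩ v) = ∅) (h : ball a (δ + r) \ closedBall a r ⊆ u) :
      U \ closedBall a r ⊆ u := by
    rcases isPreconnected_iff_subset_of_disjoint.1 c (u ∩ (U \ closedBall a r) ∪ ball a (δ + r))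
      (v ∩ (U \ closedBall a r)) ((ou.inter oV).union isOpen_ball) (ov.inter oV) (fun z hz => by
        by_cases m : z ∈ closedBall a r
        · exact .inl (.inr (closedBall_subset_ball (by linarith) m))
        · exact (cv ⟨hz, m⟩).elim (fun e => .inl (.inl ⟨e, hz, m⟩)) fun e => .inr ⟨e, hz, m⟩) (by
        refine eq_empty_of_forall_notMem fun z ⟨_, h1, h2, h3⟩ => dj.subset ⟨h3, ?_, h2⟩
        exact h1.elim (·.1) fun e => h ⟨e, h3.2⟩) with e | e
    · exact fun z hz => (e hz.1).elim (·.1) fun m => h ⟨m, hz.2⟩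
    · exact ((e (s (mem_closedBall_self r0.le))).2.2 (mem_closedBall_self r0.le)).elim
  refine isPreconnected_iff_subset_of_disjoint.2 fun u v ou ov cv dj => ?_
  have sb : ball a (δ + r) \ closedBall a r ⊆ U \ closedBall a r := sdiff_subset_sdiff_left hδ
  rcases isPreconnected_iff_subset_of_disjoint.1 (ann a r0) u v ou ov (sb.trans cv)
    (subset_eq_empty (inter_subset_inter_left _ sb) dj) with e | e
  · exact .inl (key u v ou ov cv dj e)
  · exact .inr (key v u ov ou (union_comm u v ▸ cv) (inter_comm u v ▸ dj) e)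

lemma har {H : ℂ → ℂ} {y b : ℂ} {R : ℝ} (d : DifferentiableOn ℂ H (ball y R)) (p : ∀ z ∈ ball y R, 0 ≤ (H z).re)
    (R0 : 0 < R) (k : ‖b - y‖ ≤ R / 2) : (H b).re ≤ 3 * (H y).re := le_of_forall_pos_le_add fun η η0 => by
  have mt : MapsTo (y + ·) (ball 0 R) (ball y R) := fun z k => by simpa using k
  have := p y (mem_ball_self R0)
  have := (Complex.re_le_norm _).trans ((norm_neg _).trans_le (Complex.borelCaratheodory_zero
    (f := fun z => H y - H (y + z))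
    (M := (H y).re + η / 2) (by positivity) ((d.comp (by fun_prop) mt).const_sub _) (fun z k => by
      simp only [mem_ofPred_eq, Complex.sub_re]; linarith [p _ (mt k)]) R0 (z := b - y) (by
        rw [mem_ball_zero_iff]; linarith) (by simp)))
  rw [le_div_iff₀ (by linarith)] at this
  simp only [add_sub_cancel, Complex.neg_re, Complex.sub_re] at this
  by_contra! c
  nlinarith [mul_le_mul_of_nonneg_left k (show 0 ≤ (H y).re + η / 2 by positivity)]

def Hk (U : Set ℂ) (x y : ℂ) (C : ℝ) : Prop :=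
  ∀ H : ℂ → ℂ, DifferentiableOn ℂ H U → (∀ z ∈ U, 0 ≤ (H z).re) → (H y).re ≤ C * (H x).re

lemma Hk.trans {U : Set ℂ} {x y z : ℂ} {C D : ℝ} (h : Hk U x y C) (h' : Hk U y z D) (D0 : 0 ≤ D) :
    Hk U x z (D * C) := fun H a b => (h' H a b).trans (by
  rw [mul_assoc]; exact mul_le_mul_of_nonneg_left (h H a b) D0)

lemma Hk.mono {U : Set ℂ} {x y : ℂ} {C D : ℝ} (h : Hk U x y C) (hx : x ∈ U) (e : C ≤ D) : Hk U x y D :=
  fun H a b => (h H a b).trans (mul_le_mul_of_nonneg_right e (b x hx))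

lemma loc {U : Set ℂ} (o : IsOpen U) {y : ℂ} (hy : y ∈ U) : ∀ᶠ b in 𝓝 y, Hk U y b 3 ∧ Hk U b y 3 := by
  obtain ⟨R, R0, s⟩ := Metric.isOpen_iff.1 o y hy
  filter_upwards [ball_mem_nhds y (show 0 < R / 4 by positivity)] with b hb
  rw [mem_ball_iff_norm] at hb
  have s2 : ball b (R / 2) ⊆ U := (ball_subset_ball' (by rw [dist_eq_norm]; linarith)).trans s
  exact ⟨fun H d p => har (d.mono s) (fun z hz => p z (s hz)) R0 (by linarith), fun H d p =>
    har (d.mono s2) (fun z hz => p z (s2 hz)) (by positivity) (by rw [norm_sub_rev]; linarith)⟩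

lemma glob {U L : Set ℂ} (o : IsOpen U) (c : IsPreconnected U) (s : L ⊆ U) (k : IsCompact L) :
    ∃ C, 0 ≤ C ∧ ∀ x ∈ L, ∀ y ∈ L, Hk U x y C := by
  rcases L.eq_empty_or_nonempty with rfl | ⟨x0, h0⟩
  · exact ⟨0, le_rfl, by simp⟩
  have pt : ∀ y ∈ U, ∃ C, 0 ≤ C ∧ Hk U x0 y C ∧ Hk U y x0 C := fun y hy =>
    c.induction₂' (fun x y => ∃ C, 0 ≤ C ∧ Hk U x y C ∧ Hk U y x C)
      (fun x hx => ((loc o hx).mono fun b hb =>
        ⟨⟨3, by norm_num, hb⟩, ⟨3, by norm_num, hb.symm⟩⟩).filter_mono nhdsWithin_le_nhds)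
      (fun x y z _ _ _ ⟨C, C0, a, b⟩ ⟨D, D0, a', b'⟩ =>
        ⟨D * C, by positivity, a.trans a' D0, mul_comm C D ▸ b'.trans b C0⟩) (s h0) hy
  obtain ⟨C, C0, hC⟩ : ∃ C, 0 ≤ C ∧ ∀ y ∈ L, y ∈ U → Hk U x0 y C ∧ Hk U y x0 C := by
    refine k.induction_on (p := fun t => ∃ C, 0 ≤ C ∧ ∀ y ∈ t, y ∈ U → Hk U x0 y C ∧ Hk U y x0 C)
      ⟨0, le_rfl, by simp⟩ (fun t t' e ⟨C, C0, h⟩ => ⟨C, C0, fun y hy => h y (e hy)⟩)
      (fun t t' ⟨C, C0, h⟩ ⟨D, D0, h'⟩ => ⟨C + D, by positivity, fun y hy m => hy.elim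
        (fun e => ⟨(h y e m).1.mono (s h0) (by linarith), (h y e m).2.mono m (by linarith)⟩)
        (fun e => ⟨(h' y e m).1.mono (s h0) (by linarith), (h' y e m).2.mono m (by linarith)⟩)⟩) fun y hy => ?_
    obtain ⟨C, C0, a, b⟩ := pt y (s hy)
    exact ⟨_, mem_nhdsWithin_of_mem_nhds (loc o (s hy)), 3 * C, by positivity, fun z hz _ =>
      ⟨a.trans hz.1 (by norm_num), mul_comm C 3 ▸ hz.2.trans b C0⟩⟩
  exact ⟨C * C, by positivity, fun x hx y hy => (hC x hx (s hx)).2.trans (hC y hy (s hy)).1 C0⟩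

lemma exL {U : Set ℂ} (o : IsOpen U) (c : IsPreconnected U) (v : volume U ≠ ∞) {ε : ℝ≥0∞} (ε0 : ε ≠ 0) :
    ∃ (L : Set ℂ) (κ : ℝ), 0 < κ ∧ κ ≤ 1 ∧ L ⊆ U ∧ volume (U \ L) ≤ ε ∧ ∀ h : ℂ → ℂ, DifferentiableOn ℂ h U →
      ∀ M, 0 < M → (∀ z ∈ U, ‖h z‖ ≤ M) → ∀ x ∈ L, ∀ y ∈ L, ‖h x - h y‖ ≤ (2 - κ) * M := by
  obtain ⟨L, s, k, e⟩ := o.measurableSet.exists_isCompact_sdiff_lt v ε0
  obtain ⟨C, C0, hC⟩ := glob o c s k
  refine ⟨L, 1 / (C + 1), by positivity, by rw [div_le_one (by positivity)]; linarith, s, e.le,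
    fun h d M M0 b x hx y hy => ?_⟩
  obtain ⟨u, u1, hu⟩ := Complex.exists_norm_eq_mul_self (h x - h y)
  have q z (hz : z ∈ U) : |(u * h z).re| ≤ M :=
    (Complex.abs_re_le_norm _).trans (by rw [norm_mul, u1, one_mul]; exact b z hz)
  have := hC x hx y hy (fun z => M - u * h z) ((d.const_mul u).const_sub _) fun z hz => by
    simp only [Complex.sub_re, Complex.ofReal_re]; linarith [abs_le.1 (q z hz)]
  have e2 := congrArg Complex.re hu
  simp only [Complex.sub_re, Complex.ofReal_re, mul_sub] at this e2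
  have a := abs_le.1 (q x (s hx))
  have a' := abs_le.1 (q y (s hy))
  by_contra! w
  have w2 : (2 - 1 / (C + 1)) * M = 2 * M - M / (C + 1) := by ring
  have w3 : M / (C + 1) * (C + 1) = M := div_mul_cancel₀ _ (by positivity)
  have w4 : M - (u * h x).re ≤ M / (C + 1) := by linarith
  nlinarith [mul_le_mul_of_nonneg_left w4 C0]

end Pool.Agent.H.MP_06dd87_an
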