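import Pool.Agent.H.MP_06dd87_an.A

open Set Metric Filter Topology MeasureTheory TopologicalSpace
open scoped Real ENNReal

namespace Pool.Agent.H.MP_06dd87_an
open Pool.Agent.H.MP_65d7a7_an

lemma kill {K : Compacts ℂ} {ι : Type} (I : Finset ι) (p : ι → ℂ) {ρ B N : ℝ} (ρ0 : 0 ≤ ρ) (N0 : 0 ≤ N)
    (hp : ∀ i ∈ I, p i ∉ K) (hB : ∀ z : K, ∑ i ∈ I, ρ / ‖(z : ℂ) - p i‖ ≤ B) (x : K)
    (hx : 2 * N * B < ∑ i ∈ I, ρ / ‖(x : ℂ) - p i‖ ^ 2) : x ∉ F K N := fun h => by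
  classical
  choose! g gm ge using fun i (hi : i ∈ I) => inv_mem (hp i hi)
  have n (i) (hi : i ∈ I) (z : K) : (z : ℂ) - p i ≠ 0 := fun e => hp i hi (sub_eq_zero.1 e ▸ z.2)
  let c : ι → ℂ := fun i => ((ρ / ‖(x : ℂ) - p i‖ ^ 2 : ℝ) : ℂ) * ((x : ℂ) - p i)
  have cn (i) (hi : i ∈ I) : ‖c i‖ = ρ / ‖(x : ℂ) - p i‖ := by
    have := norm_pos_iff.2 (n i hi x)
    simp only [c, norm_mul, Complex.norm_real]
    rw [Real.norm_of_nonneg (by positivity)]
    field_simp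
  have := h (∑ i ∈ I, c i • g i) (sum_mem fun i hi => (RA K).smul_mem (gm i hi) _)
  have e1 : (∑ i ∈ I, c i • g i) x = ((∑ i ∈ I, ρ / ‖(x : ℂ) - p i‖ ^ 2 : ℝ) : ℂ) := by
    rw [ContinuousMap.sum_apply, Complex.ofReal_sum]
    refine Finset.sum_congr rfl fun i hi => ?_
    rw [ContinuousMap.smul_apply, ge i hi, smul_eq_mul, mul_assoc, mul_inv_cancel₀ (n i hi x), mul_one]
  have B0 : 0 ≤ B := (Finset.sum_nonneg fun i _ => by positivity).trans (hB x)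
  have e2 : ‖W K x * ∑ i ∈ I, c i • g i‖ ≤ 2 * B := (ContinuousMap.norm_le _ (by positivity)).2 fun z => by
    rw [ContinuousMap.mul_apply, ContinuousMap.sum_apply, Finset.mul_sum]
    refine (norm_sum_le_of_le _ (n := fun i => ρ / ‖(x : ℂ) - p i‖ + ρ / ‖(z : ℂ) - p i‖) fun i hi => ?_).trans ?_
    · have a := n i hi z
      have b := norm_pos_iff.2 (n i hi x)
      have e : W K x z * (c i • g i) z = c i - c i * ((x : ℂ) - p i) / ((z : ℂ) - p i) := by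
        rw [ContinuousMap.smul_apply, ge i hi, smul_eq_mul]
        simp only [W, ContinuousMap.coe_mk]
        field_simp
        ring
      rw [e]
      refine (norm_sub_le _ _).trans_eq ?_
      rw [norm_div, norm_mul (c i), cn i hi, div_mul_cancel₀ _ b.ne']
    · rw [Finset.sum_add_distrib]; linarith [hB x, hB z]
  rw [e1, Complex.norm_real, Real.norm_of_nonneg (Finset.sum_nonneg fun i _ => by positivity)] at this
  nlinarith [mul_le_mul_of_nonneg_left e2 N0]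

lemma ub {ι : Type} (I : Finset ι) (p : ι → ℂ) {h κ : ℝ} (h0 : 0 < h) (h1 : h ≤ 1) (κ0 : 0 < κ) (κ1 : κ ≤ 1 / 200)
    (sep : ∀ i ∈ I, ∀ j ∈ I, i ≠ j → h ≤ ‖p i - p j‖) (hp : ∀ i ∈ I, ‖p i‖ ≤ 1) {z : ℂ} (z1 : ‖z‖ ≤ 1)
    (hz : ∀ i ∈ I, κ * h ^ 2 ≤ ‖z - p i‖) : ∑ i ∈ I, κ * h ^ 2 / ‖z - p i‖ ≤ 2 := by
  classical
  have pi := Real.pi_pos
  rw [← Finset.sum_filter_add_sum_filter_not I fun i => ‖z - p i‖ < h / 2]
  have A : ∑ i ∈ I.filter fun i => ‖z - p i‖ < h / 2, κ * h ^ 2 / ‖z - p i‖ ≤ 1 := by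
    have c : (I.filter fun i => ‖z - p i‖ < h / 2).card ≤ 1 := Finset.card_le_one.2 fun i hi j hj => by
      by_contra e
      rw [Finset.mem_filter] at hi hj
      linarith [sep i hi.1 j hj.1 e, norm_sub_le_norm_sub_add_norm_sub (p i) z (p j), norm_sub_rev (p i) z]
    refine (Finset.sum_le_card_nsmul _ _ 1 fun i hi => div_le_one_of_le₀ (hz i (Finset.mem_filter.1 hi).1)
      (norm_nonneg _)).trans ?_
    simpa using c
  obtain ⟨J, hJ⟩ : ∃ J, J = I.filter fun i => ¬ ‖z - p i‖ < h / 2 := ⟨_, rfl⟩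
  have mJ (i) (hi : i ∈ J) : i ∈ I ∧ h / 2 ≤ ‖z - p i‖ := by
    rw [hJ, Finset.mem_filter, not_lt] at hi; exact hi
  rw [← hJ]
  have B : ∑ i ∈ J, ENNReal.ofReal (2 / 3 / ‖z - p i‖ * (π * (h / 4) ^ 2)) ≤ ENNReal.ofReal (2 * π * 3) := by
    refine le_trans ?_ (pol z 3)
    calc _ ≤ ∑ i ∈ J, ∫⁻ w in ball (p i) (h / 4), ‖z - w‖ₑ⁻¹ := Finset.sum_le_sum fun i hi => by
          rw [ENNReal.ofReal_mul (by positivity), ← volb (p i) (by positivity), ← setLIntegral_const]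
          refine setLIntegral_mono' measurableSet_ball fun w hw => ?_
          rw [mem_ball_iff_norm'] at hw
          have t := norm_sub_le_norm_sub_add_norm_sub z (p i) w
          have t2 := norm_sub_le_norm_sub_add_norm_sub z w (p i)
          have t3 := norm_sub_rev w (p i)
          have m := (mJ i hi).2
          have p0 : 0 < ‖z - w‖ := by linarith
          rw [← ofReal_norm, ← ENNReal.ofReal_inv_of_pos p0]
          refine ENNReal.ofReal_le_ofReal ?_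
          rw [inv_eq_one_div, div_le_div_iff₀ (by linarith) p0]
          linarith
      _ = ∫⁻ w in ⋃ i ∈ J, ball (p i) (h / 4), ‖z - w‖ₑ⁻¹ := (lintegral_biUnion_finset (fun i hi j hj e =>
          ball_disjoint_ball (by rw [dist_eq_norm]; linarith [sep i (mJ i hi).1 j (mJ j hj).1 e]))
          (fun i _ => measurableSet_ball) _).symm
      _ ≤ _ := lintegral_mono_set (iUnion₂_subset fun i hi => ball_subset_ball' (by
          rw [dist_eq_norm]; linarith [norm_sub_le (p i) z, hp i (mJ i hi).1]))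
  rw [← ENNReal.ofReal_sum_of_nonneg fun i _ => by positivity, ENNReal.ofReal_le_ofReal_iff (by positivity)] at B
  have C : ∑ i ∈ J, κ * h ^ 2 / ‖z - p i‖ = 24 * κ / π * ∑ i ∈ J, 2 / 3 / ‖z - p i‖ * (π * (h / 4) ^ 2) := by
    rw [Finset.mul_sum]
    refine Finset.sum_congr rfl fun i _ => ?_
    field_simp
    ring
  have D := mul_le_mul_of_nonneg_left B (show 0 ≤ 24 * κ / π by positivity)
  rw [show 24 * κ / π * (2 * π * 3) = 144 * κ by field_simp; ring] at D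
  linarith

noncomputable def Lt (h : ℝ) (u : ℤ × ℤ) : ℂ := ⟨h * u.1, h * u.2⟩

lemma Lt_sep {h : ℝ} (h0 : 0 < h) {u v : ℤ × ℤ} (e : u ≠ v) : h ≤ ‖Lt h u - Lt h v‖ := by
  have q {a b : ℤ} (n : a ≠ b) : h ≤ |h * a - h * b| := by
    rw [← mul_sub, abs_mul, abs_of_pos h0]
    refine le_mul_of_one_le_right h0.le ?_
    exact_mod_cast Int.one_le_abs (sub_ne_zero.2 n)
  by_cases c : u.1 = v.1
  · exact (q fun d => e (Prod.ext c d)).trans (Complex.abs_im_le_norm (Lt h u - Lt h v))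
  · exact (q c).trans (Complex.abs_re_le_norm (Lt h u - Lt h v))

lemma lb {h : ℝ} (h0 : 0 < h) (x : ℂ) (n : ℕ) : ∃ (I : Finset (Σ _ : ℕ, ℕ)) (u : (Σ _ : ℕ, ℕ) → ℤ × ℤ),
    Function.Injective u ∧ (∀ i ∈ I, ‖x - Lt h (u i)‖ ≤ 2 * n * h) ∧
      ((∀ i ∈ I, x ≠ Lt h (u i)) → ∀ κ, 0 ≤ κ →
        κ / 4 * ∑ a ∈ Finset.range n, 1 / ((a : ℝ) + 1) ≤ ∑ i ∈ I, κ * h ^ 2 / ‖x - Lt h (u i)‖ ^ 2) := by
  have q (t : ℝ) (a : ℕ) : |t - h * ((⌊t / h⌋ + a + 1 : ℤ) : ℝ)| ≤ (a + 1) * h := by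
    have a1 := (le_div_iff₀ h0).1 (Int.floor_le (t / h))
    have a2 := (div_lt_iff₀ h0).1 (Int.lt_floor_add_one (t / h))
    have : (0 : ℝ) ≤ a * h := by positivity
    push_cast
    rw [abs_le]
    constructor <;> nlinarith
  let u : (Σ _ : ℕ, ℕ) → ℤ × ℤ := fun i => (⌊x.re / h⌋ + i.1 + 1, ⌊x.im / h⌋ + i.2 + 1)
  have b (a c : ℕ) (hc : c < a + 1) : ‖x - Lt h (u ⟨a, c⟩)‖ ≤ 2 * (a + 1) * h := by
    have : (c : ℝ) * h ≤ a * h := by gcongr; omega
    refine (Complex.norm_le_abs_re_add_abs_im _).trans ((add_le_add (q x.re a) (q x.im c)).trans ?_)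
    linarith
  refine ⟨(Finset.range n).sigma fun a => Finset.range (a + 1), u, ?_, ?_, fun ne κ κ0 => ?_⟩
  · rintro ⟨a, c⟩ ⟨a', c'⟩ e
    simp only [u, Prod.mk.injEq] at e
    obtain rfl : a = a' := by omega
    obtain rfl : c = c' := by omega
    rfl
  · rintro ⟨a, c⟩ hi
    simp only [Finset.mem_sigma, Finset.mem_range] at hi
    refine (b a c hi.2).trans ?_
    gcongr
    exact_mod_cast hi.1
  · rw [Finset.sum_sigma, Finset.mul_sum]
    refine Finset.sum_le_sum fun a ha => le_trans ?_ (Finset.card_nsmul_le_sum _ _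
      (κ * h ^ 2 / (2 * (a + 1) * h) ^ 2) fun c hc => ?_)
    · rw [Finset.card_range, nsmul_eq_mul]
      push_cast
      refine le_of_eq ?_
      field_simp
      ring
    · have := norm_pos_iff.2 (sub_ne_zero.2 (ne ⟨a, c⟩ (Finset.mem_sigma.2 ⟨ha, hc⟩)))
      gcongr
      exact b a c (Finset.mem_range.1 hc)

lemma hole {K : Compacts ℂ} {x : K} {p : ℂ} {τ N : ℝ} (τ0 : 0 < τ) (N0 : 0 ≤ N) (s : 32 * N * τ < 1)
    (h : ∀ z : K, τ ≤ ‖(z : ℂ) - p‖) (hx : ‖(x : ℂ) - p‖ ≤ 4 * τ) : x ∉ F K N := by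
  refine kill (ι := Unit) {()} (fun _ => p) (B := 1) τ0.le N0 (fun _ _ m => ?_) (fun z => ?_) x ?_
  · simpa using τ0.trans_le (h ⟨p, m⟩)
  · simpa using div_le_one_of_le₀ (h z) (norm_nonneg _)
  · have := τ0.trans_le (h x)
    rw [Finset.sum_singleton, lt_div_iff₀ (by positivity)]
    have := pow_le_pow_left₀ this.le hx 2
    nlinarith [mul_le_mul_of_nonneg_left this N0, mul_lt_mul_of_pos_left s τ0]

lemma ray {x a : ℂ} (h : x ≠ a) {t : ℝ} (t0 : 0 ≤ t) : ∃ p : ℂ, ‖p - a‖ = t ∧ ‖x - p‖ = |‖x - a‖ - t| := by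
  have n := norm_pos_iff.2 (sub_ne_zero.2 h)
  refine ⟨a + ((t / ‖x - a‖ : ℝ) : ℂ) * (x - a), ?_, ?_⟩
  · rw [add_sub_cancel_left, norm_mul, Complex.norm_real, Real.norm_of_nonneg (by positivity),
      div_mul_cancel₀ _ n.ne']
  · rw [show x - (a + ((t / ‖x - a‖ : ℝ) : ℂ) * (x - a)) = ((1 - t / ‖x - a‖ : ℝ) : ℂ) * (x - a) by push_cast; ring,
      norm_mul, Complex.norm_real, Real.norm_eq_abs]
    nth_rewrite 2 [← abs_of_pos n]
    rw [← abs_mul, sub_mul, div_mul_cancel₀ _ n.ne', one_mul]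

end Pool.Agent.H.MP_06dd87_an
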