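import Pool.Agent.H.MP_06dd87_an.B

open Set Metric Filter Topology MeasureTheory TopologicalSpace
open scoped Real ENNReal Classical

namespace Pool.Agent.H.MP_06dd87_an
open Pool.Agent.H.MP_65d7a7_an

abbrev Dk := ℂ × ℝ × ℝ

structure Good (S : Finset Dk) : Prop where
  r0 : ∀ d ∈ S, 0 < d.2.1
  t0 : ∀ d ∈ S, 0 < d.2.2
  t1 : ∀ d ∈ S, d.2.2 ≤ 1
  sb : ∀ d ∈ S, ‖d.1‖ + d.2.1 < 1
  dj : ∀ d ∈ S, ∀ e ∈ S, d ≠ e → d.2.1 + e.2.1 < ‖d.1 - e.1‖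

def Bd (S : Finset Dk) : Set ℂ := sphere 0 1 ∪ ⋃ d ∈ S, sphere d.1 d.2.1

def Kill (S : Finset Dk) (N : ℝ) : Prop := ∀ K : Compacts ℂ, (∀ z : K, ‖(z : ℂ)‖ ≤ 1) →
  (∀ d ∈ S, ∀ z : K, d.2.1 ≤ ‖(z : ℂ) - d.1‖) → ∀ x : K, x ∉ F K N

lemma stage {S : Finset Dk} (hS : Good S) {N ε : ℝ} (N0 : 0 < N) (ε0 : 0 < ε) : ∃ S', S ⊆ S' ∧ Good S' ∧
    (∀ d ∈ S', d ∉ S → ∀ z ∈ Bd S, d.2.2 ≤ ‖z - d.1‖ - d.2.1) ∧
      ∑ d ∈ S' \ S, d.2.1 / d.2.2 ≤ ε ∧ Kill S' N := by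
  obtain ⟨τ, τ0, τ1, τ2, τ3⟩ : ∃ τ : ℝ, 0 < τ ∧ τ ≤ 1 / 4 ∧ 32 * N * τ < 1 ∧ ∀ d ∈ S, τ ≤ d.2.1 := by
    have a : ∀ᶠ τ in 𝓝[>] (0 : ℝ), ∀ d ∈ S, τ ≤ d.2.1 := (eventually_all_finset S).2 fun d hd =>
      mem_nhdsWithin_of_mem_nhds (Iic_mem_nhds (hS.r0 d hd))
    have b : ∀ᶠ τ in 𝓝[>] (0 : ℝ), τ ≤ min (1 / 4) (1 / (64 * N)) :=
      mem_nhdsWithin_of_mem_nhds (Iic_mem_nhds (by positivity))
    obtain ⟨τ, h1, h2, h3⟩ := (a.and (b.and self_mem_nhdsWithin)).exists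
    have := (le_div_iff₀ (by positivity)).1 (h2.trans (min_le_right _ _))
    exact ⟨τ, h3, h2.trans (min_le_left _ _), by nlinarith, h1⟩
  obtain ⟨κ, κ0, κ1, κ2⟩ : ∃ κ : ℝ, 0 < κ ∧ κ ≤ 1 / 200 ∧ 9 * κ ≤ ε * τ :=
    ⟨min (1 / 200) (ε * τ / 9), by positivity, min_le_left _ _, by linarith [min_le_right (1 / 200) (ε * τ / 9)]⟩
  obtain ⟨n, hn⟩ := (Real.tendsto_sum_range_one_div_nat_succ_atTop.eventually_gt_atTop (16 * N / κ)).exists
  obtain ⟨M, hM⟩ := exists_nat_ge ((2 * n + 1) / τ)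
  rw [div_le_iff₀ τ0] at hM
  have n0 : (0 : ℝ) ≤ n := by positivity
  have M1 : (1 : ℝ) ≤ M := by nlinarith [show (0 : ℝ) ≤ M by positivity]
  obtain ⟨h, h0, hh⟩ : ∃ h : ℝ, 0 < h ∧ h * M = 1 := ⟨1 / M, by positivity, by field_simp⟩
  have h1 : (2 * n + 1) * h ≤ τ := by nlinarith
  have h2 : h ≤ τ := by nlinarith
  obtain ⟨r, hr⟩ : ∃ r, r = κ * h ^ 2 := ⟨_, rfl⟩
  have r0 : 0 < r := hr ▸ by positivity
  have r1 : 2 * r < h := by rw [hr]; nlinarith [mul_pos κ0 h0, mul_pos h0 h0]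
  let Z : ℂ → Prop := fun p => ‖p‖ ≤ 1 - 2 * τ ∧ ∀ d ∈ S, d.2.1 + 2 * τ ≤ ‖p - d.1‖
  let T := ((Finset.Icc (-(M : ℤ)) M ×ˢ Finset.Icc (-(M : ℤ)) M).filter fun u => Z (Lt h u)).image
    fun u => ((Lt h u, r, τ) : Dk)
  have mT (d) (hd : d ∈ T) : ∃ u, Z (Lt h u) ∧ d = (Lt h u, r, τ) := by
    obtain ⟨u, hu, rfl⟩ := Finset.mem_image.1 hd
    exact ⟨u, (Finset.mem_filter.1 hu).2, rfl⟩
  have Tm (u) (hu : Z (Lt h u)) : ((Lt h u, r, τ) : Dk) ∈ T := by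
    have q {a : ℤ} (e : |h * a| ≤ 1) : a ∈ Finset.Icc (-(M : ℤ)) M := by
      rw [abs_mul, abs_of_pos h0] at e
      have : |(a : ℝ)| ≤ M := by nlinarith [abs_nonneg (a : ℝ)]
      rw [Finset.mem_Icc, ← abs_le]
      exact_mod_cast this
    refine Finset.mem_image_of_mem _ (Finset.mem_filter.2 ⟨Finset.mem_product.2 ⟨q ?_, q ?_⟩, hu⟩)
    · exact (Complex.abs_re_le_norm (Lt h u)).trans (by linarith [hu.1])
    · exact (Complex.abs_im_le_norm (Lt h u)).trans (by linarith [hu.1])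
  have U {P : Dk → Prop} (a : ∀ d ∈ S, P d) (b : ∀ u, Z (Lt h u) → P (Lt h u, r, τ)) : ∀ d ∈ S ∪ T, P d :=
    fun d hd => (Finset.mem_union.1 hd).elim (a d) fun e => by
      obtain ⟨u, hu, rfl⟩ := mT d e; exact b u hu
  refine ⟨S ∪ T, Finset.subset_union_left, ⟨U hS.r0 fun _ _ => r0, U hS.t0 fun _ _ => τ0,
    U hS.t1 fun _ _ => by simp only; linarith, U hS.sb fun _ e => by simp only; linarith [e.1],
    U (fun d hd => U (hS.dj d hd) fun u hu _ => by simp only; linarith [hu.2 d hd, norm_sub_rev d.1 (Lt h u)])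
      fun u hu => U (fun d hd _ => by simp only; linarith [hu.2 d hd]) fun v _ e => by
        simp only; linarith [Lt_sep h0 (show u ≠ v from fun e' => e (by rw [e']))]⟩,
    U (fun d a b => (b a).elim) fun u hu _ z hz => ?_, ?_, fun K k1 k2 x => ?_⟩
  · simp only
    rcases hz with hz | hz
    · linarith [mem_sphere_zero_iff_norm.1 hz, hu.1, norm_sub_norm_le z (Lt h u)]
    · obtain ⟨d, hd, e⟩ := mem_iUnion₂.1 hz
      linarith [mem_sphere_iff_norm.1 e, hu.2 d hd, norm_sub_le_norm_sub_add_norm_sub (Lt h u) z d.1,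
        norm_sub_rev z (Lt h u)]
  · have sb : (S ∪ T) \ S ⊆ T := fun d hd => by
      rw [Finset.mem_sdiff, Finset.mem_union] at hd; tauto
    have c : (((S ∪ T) \ S).card : ℝ) ≤ (2 * M + 1) * (2 * M + 1) := by
      have := (Finset.card_le_card sb).trans (Finset.card_image_le.trans (Finset.card_filter_le _ _))
      rw [Finset.card_product, Int.card_Icc, show ((M : ℤ) + 1 - -M).toNat = 2 * M + 1 by omega] at this
      exact_mod_cast this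
    refine (Finset.sum_le_card_nsmul _ _ (r / τ) fun d hd => ?_).trans ?_
    · obtain ⟨u, -, rfl⟩ := mT d (sb hd); rfl
    rw [nsmul_eq_mul, ← mul_div_assoc, div_le_iff₀ τ0]
    refine (mul_le_mul_of_nonneg_right (c.trans (show _ ≤ (3 * M) * (3 * (M : ℝ)) by nlinarith)) r0.le).trans ?_
    rw [hr, show (3 * M) * (3 * (M : ℝ)) * (κ * h ^ 2) = 9 * κ * (h * M) ^ 2 by ring, hh]
    linarith
  by_cases c1 : 1 - 3 * τ < ‖(x : ℂ)‖
  · obtain ⟨p, a, b⟩ := ray (show (x : ℂ) ≠ 0 from norm_pos_iff.1 (by linarith)) (show 0 ≤ 1 + τ by positivity)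
    rw [sub_zero] at a b
    refine hole (p := p) τ0 N0.le τ2 (fun z => ?_) (b ▸ abs_le.2 ⟨by linarith, by linarith [k1 x]⟩)
    linarith [norm_sub_norm_le p z, k1 z, norm_sub_rev p z]
  by_cases c2 : ∃ d ∈ S, ‖(x : ℂ) - d.1‖ < d.2.1 + 3 * τ
  · obtain ⟨d, hd, c2⟩ := c2
    have k := k2 d (Finset.mem_union_left _ hd)
    obtain ⟨p, a, b⟩ := ray (show (x : ℂ) ≠ d.1 from sub_ne_zero.1 (norm_pos_iff.1 ((hS.r0 d hd).trans_le (k x))))
      (sub_nonneg.2 (τ3 d hd))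
    refine hole (p := p) τ0 N0.le τ2 (fun z => ?_) (b ▸ abs_le.2 ⟨by linarith [k x], by linarith⟩)
    linarith [norm_sub_le_norm_sub_add_norm_sub (z : ℂ) p d.1, k z]
  push Not at c1 c2
  obtain ⟨I, u, inj, b1, b2⟩ := lb h0 x n
  have zI (i) (hi : i ∈ I) : Z (Lt h (u i)) := ⟨by
    linarith [b1 i hi, norm_sub_norm_le (Lt h (u i)) x, norm_sub_rev (Lt h (u i)) x], fun d hd => by
    linarith [b1 i hi, c2 d hd, norm_sub_le_norm_sub_add_norm_sub (x : ℂ) (Lt h (u i)) d.1]⟩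
  have k (i) (hi : i ∈ I) (z : K) : r ≤ ‖(z : ℂ) - Lt h (u i)‖ := k2 _ (Finset.mem_union_right _ (Tm _ (zI i hi))) z
  refine kill I (fun i => Lt h (u i)) (B := 2) r0.le N0.le (fun i hi m => ?_) (fun z => ?_) x ?_
  · simpa using r0.trans_le (k i hi ⟨_, m⟩)
  · rw [hr]
    exact ub I _ h0 (by linarith) κ0 κ1 (fun i _ j _ e => Lt_sep h0 (inj.ne e))
      (fun i hi => by linarith [(zI i hi).1]) (k1 z) fun i hi => hr ▸ k i hi z
  · refine lt_of_lt_of_le ?_ (hr ▸ b2 (fun i hi => sub_ne_zero.1 (norm_pos_iff.1 (r0.trans_le (k i hi x)))) κ κ0.le)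
    rw [div_lt_iff₀ κ0] at hn
    linarith

theorem build (β : ℕ → Finset Dk → ℝ) (β0 : ∀ m S, 0 < β m S) : ∃ S : ℕ → Finset Dk, Monotone S ∧ S 0 = ∅ ∧
    (∀ m, Good (S m)) ∧ (∀ m : ℕ, Kill (S (m + 1)) (m + 1)) ∧
    (∀ m n, ∀ d ∈ S n, d ∉ S m → ∀ z ∈ Bd (S m), d.2.2 ≤ ‖z - d.1‖ - d.2.1) ∧
    ∀ m n, ∑ d ∈ S n \ S m, d.2.1 / d.2.2 ≤ β m (S m) := by
  choose nx h1 h2 h3 h4 h5 using fun (m : ℕ) (u : {u : Finset Dk × ℝ // Good u.1 ∧ 0 < u.2}) =>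
    stage u.2.1 (N := m + 1) (ε := min u.1.2 (β m u.1.1) / 2) (by positivity) (half_pos (lt_min u.2.2 (β0 _ _)))
  let u : ℕ → {u : Finset Dk × ℝ // Good u.1 ∧ 0 < u.2} := fun n => Nat.rec
    ⟨(∅, 1), ⟨by simp, by simp, by simp, by simp, by simp⟩, one_pos⟩
    (fun m v => ⟨(nx m v, min v.1.2 (β m v.1.1) / 2), h2 m v, half_pos (lt_min v.2.2 (β0 _ _))⟩) n
  have mo : Monotone fun m => (u m).1.1 := monotone_nat_of_le_succ fun m => h1 m (u m)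
  refine ⟨fun m => (u m).1.1, mo, rfl, fun m => (u m).2.1, fun m => h5 m (u m), fun m n => ?_, fun m n => ?_⟩
  · induction n with
    | zero => exact fun d hd => absurd hd (Finset.notMem_empty d)
    | succ n ih =>
      intro d hd hm z hz
      by_cases e : d ∈ (u n).1.1
      · exact ih d e hm z hz
      have : m ≤ n := by
        by_contra c
        exact hm (mo (show n + 1 ≤ m by omega) hd)
      exact h3 n (u n) d hd e z (union_subset_union_right _ (biUnion_subset_biUnion_left (mo this)) hz)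
  rcases le_total n m with e | e
  · rw [Finset.sdiff_eq_empty_iff_subset.2 (mo e)]
    exact (β0 _ _).le
  suffices ∑ d ∈ (u n).1.1 \ (u m).1.1, d.2.1 / d.2.2 + min (u n).1.2 (β n (u n).1.1) ≤
      min (u m).1.2 (β m (u m).1.1) by
    linarith [min_le_right (u m).1.2 (β m (u m).1.1), lt_min (u n).2.2 (β0 n (u n).1.1)]
  induction n, e using Nat.le_induction with
  | base => simp
  | succ n e ih =>
    have a := Finset.sum_sdiff (f := fun d : Dk => d.2.1 / d.2.2)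
      (Finset.sdiff_subset_sdiff (h1 n (u n)) (Finset.Subset.refl (u m).1.1))
    have b : (nx n (u n) \ (u m).1.1) \ ((u n).1.1 \ (u m).1.1) = nx n (u n) \ (u n).1.1 := by
      ext d
      have := @mo m n e d
      simp only [Finset.mem_sdiff]
      tauto
    rw [b] at a
    have c : (u (n + 1)).1.2 = min (u n).1.2 (β n (u n).1.1) / 2 := rfl
    have c' : (u (n + 1)).1.1 = nx n (u n) := rfl
    rw [c']
    linarith [h4 n (u n), min_le_left (u (n + 1)).1.2 (β (n + 1) (nx n (u n)))]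

end Pool.Agent.H.MP_06dd87_an
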