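import Pool.Agent.H.MP_06dd87_an.C

open Set Metric Filter Topology MeasureTheory TopologicalSpace Polynomial
open scoped Real ENNReal Classical

namespace Pool.Agent.H.MP_06dd87_an
open Pool.Agent.H.MP_65d7a7_an

lemma ratind {K : Set ℂ} (P : (ℂ → ℂ) → Prop) (ent : ∀ f, Differentiable ℂ f → P f)
    (comb : ∀ w ∉ K, ∀ (m : ℕ) (t : ℂ) (g k : ℂ → ℂ), ContinuousOn g K → P g →
      (∀ z ∈ K, k z = t * ((z - w) ^ (m + 1))⁻¹ + g z) → P k) (d : ℕ) :
    ∀ q : ℂ[X], q.natDegree = d → (∀ z ∈ K, q.eval z ≠ 0) → ∀ p : ℂ[X], P fun z => p.eval z / q.eval z := by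
  induction d using Nat.strong_induction_on with
  | _ d ih =>
  intro q hd hq p
  rcases Nat.eq_zero_or_pos d with rfl | d0
  · rw [eq_C_of_natDegree_eq_zero hd]
    refine ent _ ?_
    simp only [eval_C]
    exact p.differentiable.div_const _
  have q0 : q ≠ 0 := by rintro rfl; simp at hd; omega
  obtain ⟨w, hw⟩ := Complex.exists_root (natDegree_pos_iff_degree_pos.1 (hd ▸ d0))
  have wK : w ∉ K := fun m => hq w m hw
  obtain ⟨q1, e, nd⟩ := exists_eq_pow_rootMultiplicity_mul_and_not_dvd q q0 w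
  obtain ⟨m, hm⟩ := Nat.exists_eq_succ_of_ne_zero ((rootMultiplicity_pos q0).2 hw).ne'
  rw [hm] at e
  have w1 : q1.eval w ≠ 0 := fun t => nd (dvd_iff_isRoot.2 t)
  have q10 : q1 ≠ 0 := by rintro rfl; simp at w1
  obtain ⟨p1, hp⟩ := dvd_iff_isRoot.2 (show (p - C (p.eval w / q1.eval w) * q1).IsRoot w by simp [w1])
  have n (z) (hz : z ∈ K) : z - w ≠ 0 := fun e => wK (sub_eq_zero.1 e ▸ hz)
  have n1 (z) (hz : z ∈ K) : q1.eval z ≠ 0 := fun t => hq z hz (by rw [e]; simp [t])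
  have n2 (z) (hz : z ∈ K) : ((X - C w) ^ m * q1).eval z ≠ 0 := by simp [n z hz, n1 z hz]
  have cp (u : ℂ[X]) : ContinuousOn (fun z => u.eval z) K := u.continuous.continuousOn
  have c2 : ContinuousOn (fun z => p1.eval z / ((X - C w) ^ m * q1).eval z) K := fun z hz =>
    (cp p1 z hz).div (cp _ z hz) (n2 z hz)
  refine comb w wK m (p.eval w / q1.eval w) _ _ c2 (ih _ ?_ ((X - C w) ^ m * q1) rfl n2 p1) fun z hz => ?_
  · rw [← hd, e, natDegree_mul (pow_ne_zero _ (X_sub_C_ne_zero w)) q10,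
      natDegree_mul (pow_ne_zero _ (X_sub_C_ne_zero w)) q10]
    simp
  · have := congrArg (eval z) hp
    have a := n z hz
    have b := n1 z hz
    simp only [eval_sub, eval_mul, eval_C, eval_X] at this
    obtain ⟨t, ht⟩ : ∃ t, t = p.eval w / q1.eval w := ⟨_, rfl⟩
    rw [← ht] at this ⊢
    rw [e]
    simp only [eval_sub, eval_mul, eval_C, eval_X, eval_pow, Nat.succ_eq_add_one]
    field_simp
    linear_combination (z - w) ^ m * this

lemma zer {f : ℂ → ℂ} {a v : ℂ} {r : ℝ} (r0 : 0 ≤ r) (hf : ∀ z ∈ closedBall a r, DifferentiableAt ℂ f z)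
    (hv : v ∉ closedBall a r) : (∮ z in C(a, r), f z * (z - v)⁻¹) = 0 := by
  have d : ∀ z ∈ closedBall a r, DifferentiableAt ℂ (fun z => f z * (z - v)⁻¹) z := fun z hz =>
    (hf z hz).mul (DifferentiableAt.inv (by fun_prop) fun e => hv (sub_eq_zero.1 e ▸ hz))
  exact Complex.circleIntegral_eq_zero_of_differentiable_on_off_countable r0 countable_empty
    (fun z hz => (d z hz).continuousAt.continuousWithinAt) fun z hz => d z (ball_subset_closedBall hz.1)

lemma dpo {w z : ℂ} (h : z ≠ w) (m : ℕ) : DifferentiableAt ℂ (fun z => ((z - w) ^ m)⁻¹) z :=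
  DifferentiableAt.inv (by fun_prop) (pow_ne_zero _ (sub_ne_zero.2 h))

lemma polint {w a v : ℂ} {r : ℝ} (hw : w ∈ ball a r) (hv : v ∉ closedBall a r) (m : ℕ) :
    (∮ z in C(a, r), ((z - w) ^ (m + 1))⁻¹ * (z - v)⁻¹) = -(2 * π * Complex.I) * ((v - w) ^ (m + 1))⁻¹ := by
  have r0 : 0 ≤ r := (dist_nonneg.trans_lt hw).le
  have n1 : ∀ z ∈ sphere a r, z ≠ w := fun z hz e => (mem_sphere.1 (e ▸ hz)).not_lt hw
  have n2 : ∀ z ∈ sphere a r, z ≠ v := fun z hz e => hv (e ▸ sphere_subset_closedBall hz)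
  have n3 : v - w ≠ 0 := fun e => hv (sub_eq_zero.1 e ▸ ball_subset_closedBall hw)
  have rc (k : ℕ) : (∮ z in C(a, r), ((z - w) ^ (k + 1))⁻¹ * (z - v)⁻¹) = (v - w)⁻¹ *
      ((∮ z in C(a, r), ((z - w) ^ k)⁻¹ * (z - v)⁻¹) - ∮ z in C(a, r), ((z - w) ^ (k + 1))⁻¹) := by
    have c (j : ℕ) : ContinuousOn (fun z => ((z - w) ^ j)⁻¹) (sphere a r) := fun z hz =>
      (dpo (n1 z hz) j).continuousAt.continuousWithinAt
    have c' : ContinuousOn (fun z => ((z - w) ^ k)⁻¹ * (z - v)⁻¹) (sphere a r) :=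
      (c k).mul (ContinuousOn.inv₀ (by fun_prop) fun z hz => sub_ne_zero.2 (n2 z hz))
    rw [← circleIntegral.integral_sub (c'.circleIntegrable r0) ((c _).circleIntegrable r0),
      ← circleIntegral.integral_const_mul]
    refine circleIntegral.integral_congr r0 fun z hz => ?_
    have a := sub_ne_zero.2 (n1 z hz)
    have b := sub_ne_zero.2 (n2 z hz)
    field_simp
    ring
  induction m with
  | zero =>
    rw [rc]
    simp only [pow_zero, inv_one, one_mul, zero_add, pow_one, out r0 hv,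
      circleIntegral.integral_sub_inv_of_mem_ball hw]
    ring
  | succ m ih =>
    have e (z : ℂ) : ((z - w) ^ (m + 1 + 1))⁻¹ = (z - w) ^ (-((m + 1 + 1 : ℕ) : ℤ)) := by
      rw [zpow_neg, zpow_natCast]
    rw [rc, ih, funext e, circleIntegral.integral_sub_zpow_of_ne (show -((m + 1 + 1 : ℕ) : ℤ) ≠ -1 by omega)]
    field_simp
    ring

structure Ch2 {ι : Type} (K : Set ℂ) (a : ι → ℂ) (r : ι → ℝ) : Prop where
  r0 : ∀ n, 0 < r n
  dj : ∀ m n, m ≠ n → r m + r n < ‖a m - a n‖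
  sb : ∀ n, ‖a n‖ + r n < 1
  eq : ∀ z, z ∈ K ↔ ‖z‖ ≤ 1 ∧ ∀ n, r n ≤ ‖z - a n‖

variable {ι : Type} {K : Set ℂ} {a : ι → ℂ} {r : ι → ℝ}

lemma Ch2.s0 (h : Ch2 K a r) : sphere 0 1 ⊆ K := fun z hz => by
  rw [mem_sphere_zero_iff_norm] at hz
  exact (h.eq z).2 ⟨hz.le, fun n => by linarith [h.sb n, norm_sub_norm_le z (a n)]⟩

lemma Ch2.s1 (h : Ch2 K a r) (n : ι) : sphere (a n) (r n) ⊆ K := fun z hz => by
  rw [mem_sphere_iff_norm] at hz
  refine (h.eq z).2 ⟨by linarith [h.sb n, norm_sub_norm_le z (a n)], fun m => ?_⟩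
  by_cases e : m = n
  · exact e ▸ hz.ge
  · linarith [h.dj m n e, norm_sub_le_norm_sub_add_norm_sub (a m) z (a n), norm_sub_rev (a m) z]

def Dec (K : Set ℂ) (a : ι → ℂ) (r : ι → ℝ) (g : ℂ → ℂ) : Prop :=
  ∃ (G0 : ℂ → ℂ) (G : ι → ℂ → ℂ), (∀ w, ‖w‖ ≤ 1 → DifferentiableAt ℂ G0 w) ∧
    (∀ j w, r j ≤ ‖w - a j‖ → DifferentiableAt ℂ (G j) w) ∧ (∀ z ∈ K, HasSum (fun j => G j z) (g z - G0 z)) ∧
    ∀ j v, v ∉ closedBall (a j) (r j) → (∮ z in C(a j, r j), g z * (z - v)⁻¹) = -(2 * π * Complex.I) * G j v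

lemma Ch2.dec (h : Ch2 K a r) (p q : ℂ[X]) (hq : ∀ z ∈ K, q.eval z ≠ 0) : Dec K a r fun z => p.eval z / q.eval z := by
  refine ratind (Dec K a r) (fun f hf => ⟨f, fun _ _ => 0, fun w _ => hf w, fun _ _ _ => by fun_prop,
    fun z _ => by simp, fun j v hv => by
      rw [zer (h.r0 j).le (fun z _ => hf z) hv, mul_zero]⟩) ?_ _ q rfl hq p
  rintro w wK m t g k cg ⟨G0, G, d0, d1, hs, hi⟩ e
  have sp j v (hv : v ∉ closedBall (a j) (r j)) : (∮ z in C(a j, r j), k z * (z - v)⁻¹) =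
      t * (∮ z in C(a j, r j), ((z - w) ^ (m + 1))⁻¹ * (z - v)⁻¹) + -(2 * π * Complex.I) * G j v := by
    have c : ContinuousOn (fun z => (z - v)⁻¹) (sphere (a j) (r j)) := ContinuousOn.inv₀ (by fun_prop)
      fun z hz e => hv (sub_eq_zero.1 e ▸ sphere_subset_closedBall hz)
    have c1 : ContinuousOn (fun z => t * (((z - w) ^ (m + 1))⁻¹ * (z - v)⁻¹)) (sphere (a j) (r j)) :=
      continuousOn_const.mul (ContinuousOn.mul (fun z hz =>
        (dpo (fun e : z = w => wK (e ▸ h.s1 j hz)) _).continuousAt.continuousWithinAt) c)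
    have c2 : ContinuousOn (fun z => g z * (z - v)⁻¹) (sphere (a j) (r j)) := (cg.mono (h.s1 j)).mul c
    rw [← hi j v hv, ← circleIntegral.integral_const_mul, ← circleIntegral.integral_add
      (c1.circleIntegrable (h.r0 j).le) (c2.circleIntegrable (h.r0 j).le)]
    exact circleIntegral.integral_congr (h.r0 j).le fun z hz => by simp only [e z (h.s1 j hz)]; ring
  by_cases o : ‖w‖ ≤ 1
  · obtain ⟨i, hw⟩ : ∃ i, ‖w - a i‖ < r i := by
      by_contra! c
      exact wK ((h.eq w).2 ⟨o, c⟩)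
    refine ⟨G0, fun j z => G j z + if j = i then t * ((z - w) ^ (m + 1))⁻¹ else 0, d0, fun j z hz => ?_,
      fun z hz => ?_, fun j v hv => ?_⟩
    · refine (d1 j z hz).add ?_
      split_ifs with c
      · subst c
        exact (dpo (fun e : z = w => hz.not_gt (e ▸ hw)) _).const_mul t
      · fun_prop
    · convert (hs z hz).add (hasSum_ite_eq i (t * ((z - w) ^ (m + 1))⁻¹)) using 1
      rw [e z hz]; ring
    · rw [sp j v hv]
      beta_reduce
      split_ifs with c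
      · subst c
        rw [polint (mem_ball_iff_norm.2 hw) hv]; ring
      · rw [zer (h.r0 j).le (fun z hz => dpo (fun e => ?_) _) hv]
        · ring
        rw [e, mem_closedBall_iff_norm'] at hz
        linarith [h.dj j i c, norm_sub_le_norm_sub_add_norm_sub (a j) w (a i)]
  · refine ⟨fun z => t * ((z - w) ^ (m + 1))⁻¹ + G0 z, G, fun z hz =>
      ((dpo (fun e : z = w => o (e ▸ hz)) _).const_mul t).add (d0 z hz), d1, fun z hz => ?_, fun j v hv => ?_⟩
    · convert hs z hz using 1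
      rw [e z hz]; ring
    · rw [sp j v hv, zer (h.r0 j).le (fun z hz => dpo (fun e => ?_) _) hv]
      · ring
      rw [e, mem_closedBall_iff_norm] at hz
      linarith [h.sb j, norm_sub_norm_le w (a j)]

lemma tail {f : ι → ℂ} {s : ℂ} (h : HasSum f s) (J : Finset ι) {β : ℝ}
    (b : ∀ A : Finset ι, Disjoint A J → ∑ j ∈ A, ‖f j‖ ≤ β) : ‖s - ∑ j ∈ J, f j‖ ≤ β := by
  refine le_of_tendsto (Tendsto.norm (Tendsto.sub_const h _)) ?_
  filter_upwards [eventually_ge_atTop J] with A hA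
  rw [← Finset.sum_sdiff_eq_sub hA]
  exact (norm_sum_le _ _).trans (b _ Finset.sdiff_disjoint)

/-- splitting of a rational function bounded by one on the cheese -/
lemma Ch2.split {K : Compacts ℂ} (h : Ch2 (K : Set ℂ) a r) {g : C(K, ℂ)} (hg : g ∈ RA K) (g1 : ‖g‖ ≤ 1)
    (J : Finset ι) : ∃ H : ℂ → ℂ, (∀ w, ‖w‖ ≤ 1 → (∀ j ∈ J, r j ≤ ‖w - a j‖) → DifferentiableAt ℂ H w) ∧
      ∀ (z : K) (β : ℝ), (∀ j ∉ J, r j < ‖(z : ℂ) - a j‖) →
        (∀ A : Finset ι, Disjoint A J → ∑ j ∈ A, r j / (‖(z : ℂ) - a j‖ - r j) ≤ β) → ‖g z - H z‖ ≤ β := by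
  obtain ⟨p, q, hq, e⟩ := hg
  obtain ⟨G0, G, d0, d1, hs, hi⟩ := h.dec p q fun z hz => hq ⟨z, hz⟩
  refine ⟨fun z => G0 z + ∑ j ∈ J, G j z, fun w a b => (d0 w a).add
    (DifferentiableAt.fun_sum fun j hj => d1 j w (b j hj)), fun z β o b => ?_⟩
  rw [e, ← sub_sub]
  refine tail (hs z z.2) J fun A hA => le_trans (Finset.sum_le_sum fun j hj => ?_) (b A hA)
  have o := o j (Finset.disjoint_left.1 hA hj)
  have := circleIntegral.norm_integral_le_of_norm_le_const (c := a j) (h.r0 j).le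
    (f := fun w => p.eval w / q.eval w * (w - z)⁻¹) (C := (‖(z : ℂ) - a j‖ - r j)⁻¹) fun w hw => by
      rw [norm_mul, norm_inv, ← e ⟨w, h.s1 j hw⟩]
      refine (mul_le_of_le_one_left (by positivity) ((g.norm_coe_le_norm _).trans g1)).trans
        (inv_anti₀ (sub_pos.2 o) ?_)
      linarith [mem_sphere_iff_norm.1 hw, norm_sub_le_norm_sub_add_norm_sub (z : ℂ) w (a j), norm_sub_rev w z]
  have E : ‖(2 * π * Complex.I : ℂ)‖ = 2 * π := by simp [abs_of_pos Real.pi_pos]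
  rw [hi j z fun m => o.not_ge (mem_closedBall_iff_norm.1 m), norm_mul, norm_neg, E, mul_assoc _ (r j)] at this
  exact le_of_mul_le_mul_left this (by positivity)

end Pool.Agent.H.MP_06dd87_an
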