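import Pool.Agent.H.MP_06dd87_an.D

open Set Metric Filter Topology MeasureTheory TopologicalSpace Polynomial
open scoped Real ENNReal Classical

namespace Pool.Agent.H.MP_06dd87_an
open Pool.Agent.H.MP_65d7a7_an

variable {K : Compacts ℂ}

lemma inv_RA {f : C(K, ℂ)} (hf : f ∈ RA K) (n : ∀ z, f z ≠ 0) : ∃ g ∈ RA K, ∀ z, g z = (f z)⁻¹ := by
  obtain ⟨p, q, h, e⟩ := hf
  exact ⟨⟨fun z => (f z)⁻¹, f.continuous.inv₀ n⟩, ⟨q, p, fun z c => n z (by rw [e, c, zero_div]),
    fun z => by simp [e]⟩, fun z => rfl⟩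

def Gl (x y : K) : Prop := ∃ c < 2, Cl x y c

lemma mob {x y : K} (h : Gl x y) : ∃ δ > 0, ∀ f ∈ RA K, ‖f‖ ≤ 1 → ‖f x - 1‖ ≤ δ → ‖f y - 1‖ ≤ 1 / 2 := by
  obtain ⟨c, c2, h⟩ := h
  obtain ⟨σ, σ0, σ1, σ2⟩ : ∃ σ : ℝ, 0 < σ ∧ σ ≤ 1 / 4 ∧ 20 * σ ≤ 2 - c :=
    ⟨min (1 / 4) ((2 - c) / 20), lt_min (by norm_num) (by linarith), min_le_left _ _,
      by linarith [min_le_right (1 / 4) ((2 - c) / 20)]⟩
  refine ⟨σ ^ 2, by positivity, fun f hf f1 hx => ?_⟩
  by_contra! hy
  obtain ⟨s, hs⟩ : ∃ s : ℝ, s = 1 - σ := ⟨_, rfl⟩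
  have s0 : 0 ≤ s := by linarith
  have fb z : ‖f z‖ ≤ 1 := (f.norm_coe_le_norm z).trans f1
  have lo z : σ ≤ ‖1 - s * f z‖ := by
    have := norm_sub_norm_le 1 (s * f z)
    rw [norm_one, norm_mul, Complex.norm_real, Real.norm_of_nonneg s0] at this
    nlinarith [fb z]
  have n z : 1 - s * f z ≠ 0 := norm_pos_iff.1 (σ0.trans_le (lo z))
  obtain ⟨g, hg, e⟩ := inv_RA (f := 1 - (s : ℂ) • f) (sub_mem (one_mem _) ((RA K).smul_mem hf _)) n
  replace e z : g z = (1 - s * f z)⁻¹ := e z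
  have m z : ((f - (s : ℂ) • 1) * g) z = (f z - s) / (1 - s * f z) := by simp [e, div_eq_mul_inv]
  have := h ((f - (s : ℂ) • 1) * g) (mul_mem (sub_mem hf ((RA K).smul_mem (one_mem _) _)) hg)
    ((ContinuousMap.norm_le _ zero_le_one).2 fun z => by
      rw [m, norm_div]
      refine div_le_one_of_le₀ ((pow_le_pow_iff_left₀ (norm_nonneg _) (norm_nonneg _) two_ne_zero).1 ?_) (norm_nonneg _)
      have := pow_le_one₀ (n := 2) (norm_nonneg _) (fb z)
      simp only [Complex.sq_norm, Complex.normSq_apply, Complex.sub_re, Complex.sub_im, Complex.mul_re,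
        Complex.mul_im, Complex.ofReal_re, Complex.ofReal_im, Complex.one_re, Complex.one_im] at this ⊢
      nlinarith [mul_nonneg (sub_nonneg.2 this) (show 0 ≤ 1 - s ^ 2 by nlinarith)])
  rw [m, m] at this
  have a : ‖1 - (f x - s) / (1 - s * f x)‖ ≤ 2 * σ := by
    rw [show 1 - (f x - s) / (1 - s * f x) = ((1 + s : ℝ) : ℂ) * -(f x - 1) / (1 - s * f x) by
      have := n x; rw [eq_div_iff this, sub_mul, div_mul_cancel₀ _ this]; push_cast; ring, norm_div, norm_mul, norm_neg, Complex.norm_real,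
      Real.norm_of_nonneg (by positivity), div_le_iff₀ (σ0.trans_le (lo x))]
    nlinarith [lo x, norm_nonneg (f x - 1)]
  have b : ‖(f y - s) / (1 - s * f y) - -1‖ ≤ 8 * σ := by
    have t := norm_add_le (1 - s * f y) (-(σ * f y))
    rw [show 1 - s * f y + -(σ * f y) = -(f y - 1) by rw [hs]; push_cast; ring, norm_neg, norm_neg, norm_mul,
      Complex.norm_real, Real.norm_of_nonneg σ0.le] at t
    have t2 := norm_add_le 1 (f y)
    rw [show (f y - s) / (1 - s * f y) - -1 = (σ : ℂ) * (1 + f y) / (1 - s * f y) by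
      have := n y; rw [eq_div_iff this, sub_mul, div_mul_cancel₀ _ this, hs]; push_cast; ring, norm_div, norm_mul,
      Complex.norm_real, Real.norm_of_nonneg σ0.le, div_le_iff₀ (σ0.trans_le (lo y))]
    rw [norm_one] at t2
    nlinarith [fb y]
  have t1 := norm_sub_le_norm_sub_add_norm_sub 1 ((f x - s) / (1 - s * f x)) (-1)
  have t2 := norm_sub_le_norm_sub_add_norm_sub ((f x - s) / (1 - s * f x)) ((f y - s) / (1 - s * f y)) (-1)
  rw [show ‖(1 : ℂ) - -1‖ = 2 by norm_num] at t1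
  linarith

lemma Gl.symm {x y : K} (h : Gl x y) : Gl y x := h.imp fun _ h => ⟨h.1, h.2.symm⟩

lemma near {w : ℂ} {δ : ℝ} (δ0 : 0 ≤ δ) (h : ‖w‖ ≤ 1) (e : 1 - δ ^ 2 / 2 ≤ w.re) : ‖w - 1‖ ≤ δ := by
  refine (pow_le_pow_iff_left₀ (norm_nonneg _) δ0 two_ne_zero).1 ?_
  have := pow_le_one₀ (n := 2) (norm_nonneg _) h
  simp only [Complex.sq_norm, Complex.normSq_apply, Complex.sub_re, Complex.sub_im, Complex.one_re,
    Complex.one_im] at this ⊢
  nlinarith

lemma Gl.trans {x y z : K} (h : Gl x y) (h' : Gl y z) : Gl x z := by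
  obtain ⟨a, a0, ha⟩ := mob h
  obtain ⟨b, b0, hb⟩ := mob h'.symm
  have δ0 := lt_min a0 b0
  refine ⟨2 - min a b ^ 2 / 2, by nlinarith, fun f hf f1 => ?_⟩
  by_contra! c
  obtain ⟨u, u1, hu⟩ := Complex.exists_norm_eq_mul_self (f x - f z)
  have q w : ‖u * f w‖ ≤ 1 := by rw [norm_mul, u1, one_mul]; exact (f.norm_coe_le_norm w).trans f1
  have q' w := abs_le.1 ((Complex.abs_re_le_norm _).trans (q w))
  have e := congrArg Complex.re hu
  simp only [Complex.ofReal_re, mul_sub, Complex.sub_re] at e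
  have A := ha (u • f) ((RA K).smul_mem hf _) (by rwa [norm_smul, u1, one_mul])
    ((near δ0.le (q x) (by linarith [q' z])).trans (min_le_left _ _))
  have B := hb (-(u • f)) (neg_mem ((RA K).smul_mem hf _)) (by rwa [norm_neg, norm_smul, u1, one_mul])
    ((near (w := -(u * f z)) δ0.le (by rw [norm_neg]; exact q z)
      (by rw [Complex.neg_re]; linarith [q' x])).trans (min_le_right _ _))
  have := norm_add_le ((u • f) y - 1) ((-(u • f)) y - 1)
  rw [show (u • f) y - 1 + ((-(u • f)) y - 1) = -2 by simp; ring] at this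
  norm_num at this A B
  linarith

lemma appr1 {f : C(K, ℂ)} (hf : f ∈ (RA K).topologicalClosure) (f1 : ∀ z, ‖f z‖ ≤ 1) {η : ℝ} (η0 : 0 < η) :
    ∃ g ∈ RA K, ‖g‖ ≤ 1 ∧ ∀ z, ‖f z - g z‖ ≤ η := by
  obtain ⟨g, hg, d⟩ := appr hf (half_pos η0)
  have p : 0 < 1 + η / 2 := by positivity
  have b z : ‖g z‖ ≤ 1 + η / 2 := by
    have := norm_sub_le (f z) (f z - g z)
    rw [sub_sub_cancel] at this
    linarith [d z, f1 z]
  refine ⟨(((1 + η / 2)⁻¹ : ℝ) : ℂ) • g, (RA K).smul_mem hg _, ?_, fun z => ?_⟩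
  · rw [norm_smul, Complex.norm_real, Real.norm_of_nonneg (by positivity), inv_mul_le_iff₀ p, mul_one]
    exact (ContinuousMap.norm_le _ p.le).2 b
  · refine (norm_sub_le_norm_sub_add_norm_sub _ (g z) _).trans ?_
    rw [show g z - ((((1 + η / 2)⁻¹ : ℝ) : ℂ) • g) z = ((η / 2 / (1 + η / 2) : ℝ) : ℂ) * g z by
      rw [ContinuousMap.smul_apply, smul_eq_mul, show η / 2 / (1 + η / 2) = 1 - (1 + η / 2)⁻¹ by field_simp; ring]
      push_cast
      ring, norm_mul, Complex.norm_real, Real.norm_of_nonneg (by positivity)]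
    have := mul_le_mul_of_nonneg_left (b z) (show 0 ≤ η / 2 / (1 + η / 2) by positivity)
    rw [div_mul_cancel₀ _ p.ne'] at this
    linarith [d z]

lemma Gl.nonpeak {x y : K} (h : Gl y x) (e : x ≠ y) : ¬ Peak K y := fun ⟨f, hf, f1, f0⟩ => by
  obtain ⟨δ, δ0, hδ⟩ := mob h
  obtain ⟨k, hk⟩ := exists_pow_lt_of_lt_one (show (0 : ℝ) < 1 / 4 by norm_num) (f0 x e)
  obtain ⟨g, hg, g1, d⟩ := appr1 (pow_mem hf k) (fun z => by
    rw [ContinuousMap.pow_apply, norm_pow]
    refine pow_le_one₀ (norm_nonneg _) ?_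
    by_cases e : z = y
    · simp [e, f1]
    · exact (f0 z e).le) (lt_min δ0 (show (0 : ℝ) < 1 / 8 by norm_num))
  have a := hδ g hg g1 (by
    have := (d y).trans (min_le_left _ _)
    rwa [ContinuousMap.pow_apply, f1, one_pow, norm_sub_rev] at this)
  have b := (d x).trans (min_le_right _ _)
  have t := norm_sub_le_norm_sub_add_norm_sub ((f ^ k) x) (g x) 1
  have t2 := norm_sub_norm_le 1 ((f ^ k) x)
  rw [norm_sub_rev, norm_one, ContinuousMap.pow_apply, norm_pow] at t2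
  rw [ContinuousMap.pow_apply] at b t
  linarith

lemma bishop {y : K} (h : ∀ s > 0, ∃ g ∈ RA K, g y = 1 ∧ ∀ z : K, ‖g z‖ ≤ 5 / 4 ∧ (s ≤ ‖(z : ℂ) - y‖ → ‖g z‖ ≤ 1 / 4)) :
    Peak K y := by
  choose G gm g1 gb using fun s : {s : ℝ // 0 < s} => h s s.2
  have nxt (n : ℕ) (u : {s : ℝ // 0 < s} × C(K, ℝ)) (hu : u.2 y = 1) : ∃ t : {s : ℝ // 0 < s}, t.1 ≤ u.1.1 / 2 ∧
      ∀ z : K, ‖(z : ℂ) - y‖ < t.1 → u.2 z ≤ 1 + 1 / 16 / 2 ^ (n + 2) := by
    obtain ⟨δ, δ0, hδ⟩ := Metric.continuousAt_iff.1 (u.2.continuous.continuousAt (x := y)) (1 / 16 / 2 ^ (n + 2))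
      (by positivity)
    refine ⟨⟨min δ (u.1.1 / 2), lt_min δ0 (half_pos u.1.2)⟩, min_le_right _ _, fun z hz => ?_⟩
    have := hδ (x := z) (by rw [Subtype.dist_eq, dist_eq_norm]; exact hz.trans_le (min_le_left _ _))
    rw [hu, Real.dist_eq, abs_lt] at this
    linarith
  choose! nx n1 n2 using nxt
  let N : {s : ℝ // 0 < s} → C(K, ℝ) := fun s => ⟨fun z => ‖G s z‖, by fun_prop⟩
  let u : ℕ → {s : ℝ // 0 < s} × C(K, ℝ) := fun n => Nat.rec (⟨‖W K y‖ + 1, by positivity⟩, N ⟨‖W K y‖ + 1, by positivity⟩)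
    (fun n v => (nx n v, v.2 ⊔ N (nx n v))) n
  have us n : u (n + 1) = (nx n (u n), (u n).2 ⊔ N (nx n (u n))) := rfl
  have uy n : (u n).2 y = 1 := by
    induction n with
    | zero => simp [u, N, g1]
    | succ n ih => simp [us, ih, g1, N]
  have um : Monotone fun n => (u n).2 := monotone_nat_of_le_succ fun n => le_sup_left
  have ug j n (e : j ≤ n) z : ‖G (u j).1 z‖ ≤ (u n).2 z :=
    le_trans (show N (u j).1 ≤ (u j).2 from by
      cases j
      · exact le_rfl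
      · exact le_sup_right) (um e) z
  have an : Antitone fun n => (u n).1.1 := antitone_nat_of_succ_le fun n =>
    (n1 n (u n) (uy n)).trans (half_le_self (u n).1.2.le)
  have sm n : (u n).1.1 ≤ (u 0).1.1 / 2 ^ n := by
    induction n with
    | zero => simp
    | succ n ih => exact (n1 n (u n) (uy n)).trans (by rw [pow_succ, ← div_div]; linarith)
  let w : ℕ → ℝ := fun n => 1 / 2 / 2 ^ n
  have ws : HasSum w 1 := hasSum_geometric_two' 1
  have w0 n : 0 < w n := by positivity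
  have S : Summable fun n => (w n : ℂ) • G (u n).1 := (ws.summable.mul_right (5 / 4)).of_norm_bounded fun n => by
    rw [norm_smul, Complex.norm_real, Real.norm_of_nonneg (w0 n).le]
    exact mul_le_mul_of_nonneg_left ((ContinuousMap.norm_le _ (by norm_num)).2 fun z => (gb _ z).1) (w0 n).le
  have Sz z : HasSum (fun n => (w n : ℂ) * G (u n).1 z) ((∑' n, (w n : ℂ) • G (u n).1) z) :=
    (ContinuousMap.evalCLM ℂ z).hasSum S.hasSum
  refine ⟨∑' n, (w n : ℂ) • G (u n).1, mem_closure_of_tendsto S.hasSum (.of_forall fun A =>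
    sum_mem fun n _ => (RA K).smul_mem (gm _) _), ?_, fun z hz => ?_⟩
  · refine (Sz y).unique ?_
    simp only [g1, mul_one]
    exact Complex.hasSum_ofReal.2 ws
  have p0 : 0 < ‖(z : ℂ) - y‖ := norm_pos_iff.2 (sub_ne_zero.2 fun e => hz (Subtype.ext e))
  have ex : ∃ n, (u n).1.1 ≤ ‖(z : ℂ) - y‖ := by
    obtain ⟨n, hn⟩ := pow_unbounded_of_one_lt ((u 0).1.1 / ‖(z : ℂ) - y‖) (one_lt_two (α := ℝ))
    refine ⟨n, (sm n).trans ?_⟩
    rw [div_lt_iff₀ p0] at hn
    rw [div_le_iff₀ (by positivity)]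
    linarith
  obtain ⟨m, hm⟩ := Nat.exists_eq_succ_of_ne_zero (show Nat.find ex ≠ 0 from fun e => by
    have := Nat.find_spec ex
    rw [e] at this
    linarith [(W K y).norm_coe_le_norm z, show (u 0).1.1 = ‖W K y‖ + 1 from rfl,
      show ‖W K y z‖ = ‖(z : ℂ) - y‖ from rfl])
  have a := Nat.find_spec ex
  have b := not_le.1 (Nat.find_min ex (hm ▸ Nat.lt_succ_self m))
  rw [hm] at a
  have := (Sz z).norm_le_of_bounded (((ws.mul_right (1 + w (m + 1) / 8)).add (hasSum_ite_eq m (w m / 4))).sub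
    (hasSum_ite_eq (m + 1) (w (m + 1) * (3 / 4)))) fun j => by
      rw [norm_mul, Complex.norm_real, Real.norm_of_nonneg (w0 j).le]
      have := w0 j
      have := mul_pos this (w0 (m + 1))
      rcases lt_trichotomy j m with c | rfl | c
      · obtain ⟨k, rfl⟩ := Nat.exists_eq_succ_of_ne_zero (show m ≠ 0 by omega)
        have q := (ug j k (by omega) z).trans (n2 k (u k) (uy k) z b)
        rw [show (1 : ℝ) / 16 / 2 ^ (k + 2) = w (k.succ + 1) / 8 by simp only [w, Nat.succ_eq_add_one]; ring] at q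
        rw [if_neg c.ne, if_neg (by omega)]
        nlinarith
      · rw [if_pos rfl, if_neg (by omega)]
        nlinarith [(gb (u j).1 z).1]
      · have q := (gb (u j).1 z).2 ((an (show m + 1 ≤ j from c)).trans a)
        rw [if_neg c.ne']
        split_ifs with d
        · subst d; nlinarith
        · nlinarith
  refine this.trans_lt ?_
  have e : w m = 2 * w (m + 1) := by simp only [w, pow_succ]; field_simp
  have := w0 (m + 1)
  linarith

end Pool.Agent.H.MP_06dd87_an
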