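import Pool.Agent.H.MP_06dd87_an.E

open Set Metric Filter Topology MeasureTheory TopologicalSpace Polynomial
open scoped Real ENNReal Classical

namespace Pool.Agent.H.MP_06dd87_an
open Pool.Agent.H.MP_65d7a7_an

variable {K : Compacts ℂ}

lemma meas {y : K} (h : ¬ Peak K y) : ∃ ν : Measure K, IsFiniteMeasure ν ∧ ν {y} = 0 ∧
    ∀ g ∈ RA K, ‖g y‖ ≤ 20 * ∫ z, ‖g z‖ ∂ν := by
  have := mt bishop h
  push Not at this
  obtain ⟨s, s0, hs⟩ := this
  let u : K → ℝ := fun z => min 4 (4 / 5 + 4 * ‖(z : ℂ) - y‖ / s)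
  have u0 z : 4 / 5 ≤ u z := le_min (by norm_num) (le_add_of_nonneg_right (by positivity))
  have u1 z : u z ≤ 4 := min_le_left _ _
  let v : C(K, ℂ) := ⟨fun z => u z, by fun_prop⟩
  have vn z (w : ℂ) : ‖v z * w‖ = u z * ‖w‖ := by
    rw [norm_mul]; congr 1
    exact (Complex.norm_real _).trans (Real.norm_of_nonneg (by linarith [u0 z]))
  obtain ⟨μ, _, hμ⟩ := dom (Subalgebra.toSubmodule (RA K)) v y 1 zero_le_one fun g hg => by
    by_contra! c
    rw [one_mul] at c
    have p := (norm_nonneg _).trans_lt c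
    obtain ⟨z, hz⟩ := hs ((g y)⁻¹ • g) ((RA K).smul_mem hg _) (by simp [norm_pos_iff.1 p])
    have a := ((v * g).norm_coe_le_norm z).trans_lt c
    rw [ContinuousMap.mul_apply, vn] at a
    have e : ‖((g y)⁻¹ • g) z‖ = ‖g z‖ / ‖g y‖ := by simp [div_eq_inv_mul]
    rw [e] at hz
    obtain ⟨b, d⟩ := hz (by rw [div_le_iff₀ p]; nlinarith [u0 z, norm_nonneg (g z)])
    rw [lt_div_iff₀ p] at d
    have : u z = 4 := min_eq_left (by
      have : 4 ≤ 4 * ‖(z : ℂ) - y‖ / s := by rw [le_div_iff₀ s0]; linarith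
      linarith)
    rw [this] at a
    linarith
  refine ⟨μ.restrict {y}ᶜ, inferInstance, by simp, fun g hg => ?_⟩
  have a := hμ g hg
  have i {f : K → ℝ} (c : Continuous f) : Integrable f μ :=
    c.integrable_of_hasCompactSupport (HasCompactSupport.of_compactSpace _)
  rw [one_mul, ← integral_add_compl (measurableSet_singleton y) (i (by fun_prop)), integral_singleton, vn,
    smul_eq_mul] at a
  have b : ∫ z in {y}ᶜ, ‖v z * g z‖ ∂μ ≤ ∫ z in {y}ᶜ, 4 * ‖g z‖ ∂μ :=
    integral_mono (i (by fun_prop)).integrableOn (i (by fun_prop)).integrableOn fun z => by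
      simp only [vn]; exact mul_le_mul_of_nonneg_right (u1 z) (norm_nonneg _)
  rw [integral_const_mul] at b
  have c : u y = 4 / 5 := by simp [u]; norm_num
  have d : μ.real {y} ≤ 1 := measureReal_le_one
  rw [c] at a
  nlinarith [norm_nonneg (g y)]

lemma browder {y : K} (h : ¬ Peak K y) {N : Set ℂ} (hN : volume N = 0) : ∃ p : K, (p : ℂ) ∉ N ∧ Cl y p 1 := by
  obtain ⟨ν, _, ν0, hν⟩ := meas h
  have pi := Real.pi_pos
  obtain ⟨U, yU, oU, mU⟩ := Set.exists_isOpen_lt_of_lt (μ := ν) {y} (ENNReal.ofReal (1 / 400)) (by simp [ν0])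
  obtain ⟨ρ, ρ0, hρ⟩ := Metric.isOpen_iff.1 oU y (yU rfl)
  obtain ⟨M, hM⟩ : ∃ M, M = ν.real univ + 1 := ⟨_, rfl⟩
  have M1 : 1 ≤ M := hM ▸ le_add_of_nonneg_left measureReal_nonneg
  obtain ⟨s, s0, hs⟩ : ∃ s : ℝ, 0 < s ∧ 400 * M * s = ρ := ⟨ρ / (400 * M), by positivity, by field_simp⟩
  let Ψ : ℂ → ℝ≥0∞ := fun p => ∫⁻ z : K, ‖(z : ℂ) - p‖ₑ⁻¹ ∂ν
  have I : ∫⁻ p in ball (y : ℂ) s, Ψ p ≤ ENNReal.ofReal (8 * π * s / 400) := by
    rw [lintegral_lintegral_swap (by fun_prop)]
    calc _ ≤ ∫⁻ z : K, U.indicator (fun _ => ENNReal.ofReal (2 * π * (3 * s))) z +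
          ENNReal.ofReal (2 / (400 * M) * π * s) ∂ν := lintegral_mono fun z => by
          by_cases c : ‖(z : ℂ) - y‖ ≤ 2 * s
          · rw [indicator_of_mem (hρ (by rw [mem_ball, Subtype.dist_eq, dist_eq_norm]; nlinarith))]
            exact (((lintegral_mono_set (ball_subset_ball' (by rw [dist_comm, dist_eq_norm]; linarith))).trans
              (pol z _))).trans le_self_add
          have bd (t : ℝ) (t0 : 0 < t) (ht : t ≤ ‖(z : ℂ) - y‖ / 2) :
              ∫⁻ p in ball (y : ℂ) s, ‖(z : ℂ) - p‖ₑ⁻¹ ≤ ENNReal.ofReal (t⁻¹ * (π * s ^ 2)) := by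
            rw [ENNReal.ofReal_mul (by positivity), ← volb y s0.le, ← setLIntegral_const]
            refine setLIntegral_mono' measurableSet_ball fun p hp => ?_
            have := norm_sub_le_norm_sub_add_norm_sub (z : ℂ) p y
            rw [mem_ball_iff_norm] at hp
            rw [← ofReal_norm, ← ENNReal.ofReal_inv_of_pos (by linarith)]
            exact ENNReal.ofReal_le_ofReal (inv_anti₀ t0 (by linarith))
          by_cases c2 : z ∈ U
          · rw [indicator_of_mem c2]
            refine ((bd s s0 (by linarith)).trans (ENNReal.ofReal_le_ofReal ?_)).trans le_self_add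
            rw [show s⁻¹ * (π * s ^ 2) = π * s by field_simp]
            nlinarith [mul_pos pi s0]
          · have : ρ ≤ ‖(z : ℂ) - y‖ := not_lt.1 fun e => c2 (hρ (by rwa [mem_ball, Subtype.dist_eq, dist_eq_norm]))
            refine ((bd (ρ / 2) (by positivity) (by linarith)).trans (le_of_eq ?_)).trans le_add_self
            congr 1
            rw [← hs]
            field_simp
      _ ≤ ENNReal.ofReal (2 * π * (3 * s)) * ENNReal.ofReal (1 / 400) +
          ENNReal.ofReal (2 / (400 * M) * π * s) * ENNReal.ofReal M := by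
          rw [lintegral_add_right _ measurable_const, lintegral_indicator_const oU.measurableSet, lintegral_const]
          gcongr
          rw [← ofReal_measureReal]
          exact ENNReal.ofReal_le_ofReal (by linarith)
      _ = _ := by
          rw [← ENNReal.ofReal_mul (by positivity), ← ENNReal.ofReal_mul (by positivity),
            ← ENNReal.ofReal_add (by positivity) (by positivity)]
          congr 1
          field_simp
          ring
  obtain ⟨p, hp, e⟩ := sel (fun p => if p ∈ N then ∞ else ENNReal.ofReal (400 * s) * Ψ p) y s0 (k := 8) (by norm_num) (by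
    rw [lintegral_congr_ae (g := fun p => ENNReal.ofReal (400 * s) * Ψ p) (ae_restrict_of_ae
      ((measure_eq_zero_iff_ae_notMem.1 hN).mono fun p hp => if_neg hp)),
      lintegral_const_mul' _ _ ENNReal.ofReal_ne_top]
    refine (mul_le_mul_right I _).trans (le_of_eq ?_)
    rw [← ENNReal.ofReal_mul (by positivity)]
    congr 1
    ring)
  have pN : p ∉ N := fun m => by simp [m] at e
  rw [if_neg pN] at e
  rw [mem_ball_iff_norm'] at hp
  have bd {g : C(K, ℂ)} (hg : g ∈ RA K) {c : ℝ} (c0 : 0 < c) (hc : ∀ z : K, ‖(z : ℂ) - p‖ * ‖g z‖ ≤ c) :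
      s * ‖g y‖ ≤ c / 2 := by
    have a : ∫⁻ z, ‖g z‖ₑ ∂ν ≤ ENNReal.ofReal c * Ψ p := by
      rw [← lintegral_const_mul' _ _ ENNReal.ofReal_ne_top]
      refine lintegral_mono fun z => ?_
      by_cases e : (z : ℂ) - p = 0
      · simp [e, ENNReal.mul_top (ENNReal.ofReal_pos.2 c0).ne']
      · have p0 := norm_pos_iff.2 e
        rw [← ofReal_norm, ← ofReal_norm, ← ENNReal.ofReal_inv_of_pos p0, ← ENNReal.ofReal_mul c0.le]
        refine ENNReal.ofReal_le_ofReal ?_
        rw [← div_eq_mul_inv, le_div_iff₀' p0]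
        exact hc z
    rw [← ofReal_integral_norm_eq_lintegral_enorm
      (g.continuous.integrable_of_hasCompactSupport (HasCompactSupport.of_compactSpace _))] at a
    have b := (mul_le_mul_right a (ENNReal.ofReal (400 * s))).trans
      ((mul_left_comm _ _ _).trans_le (mul_le_mul_right e _))
    rw [← ENNReal.ofReal_mul (by positivity), ← ENNReal.ofReal_mul c0.le,
      ENNReal.ofReal_le_ofReal_iff (by positivity)] at b
    nlinarith [mul_le_mul_of_nonneg_left (hν g hg) s0.le]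
  have pK : p ∈ K := by
    by_contra c
    obtain ⟨g, hg, e⟩ := inv_mem c
    have m (z : K) : 0 < ‖(z : ℂ) - p‖ := norm_pos_iff.2 fun e => c (sub_eq_zero.1 e ▸ z.2)
    have := bd hg one_pos fun z => by rw [e, norm_inv, mul_inv_cancel₀ (m z).ne']
    rw [e, norm_inv, ← div_eq_mul_inv, div_le_iff₀ (m y)] at this
    linarith
  refine ⟨⟨p, pK⟩, pN, fun f hf f1 => ?_⟩
  obtain ⟨g, hg, e⟩ := dq hf ⟨p, pK⟩
  have := bd hg two_pos fun z => by
    rw [← norm_mul, ← e]
    linarith [norm_sub_le (f z) (f ⟨p, pK⟩), f.norm_coe_le_norm z, f.norm_coe_le_norm ⟨p, pK⟩]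
  rw [e, norm_mul]
  nlinarith [norm_nonneg (g y)]

lemma noder {y : K} (nF : ∀ n : ℕ, y ∉ F K (n + 1)) (D : (RA K).topologicalClosure →L[ℂ] ℂ)
    (hD : ∀ f g, D (f * g) = f.1 y * D g + g.1 y * D f) : D = 0 := by
  have le := (RA K).le_topologicalClosure
  let Z : (RA K).topologicalClosure := ⟨W K y, le (W_mem y)⟩
  have key (g) (hg : g ∈ RA K) : D (Z * ⟨g, le hg⟩) = g y * D Z := by rw [hD]; simp [Z, W]
  have Z0 : D Z = 0 := by
    by_contra c
    have c0 := norm_pos_iff.2 c
    obtain ⟨n, hn⟩ := exists_nat_ge (‖D‖ / ‖D Z‖)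
    refine nF n fun g hg => ?_
    have := D.le_opNorm (Z * ⟨g, le hg⟩)
    rw [key g hg, norm_mul, ← le_div_iff₀ c0, mul_div_right_comm] at this
    exact this.trans (mul_le_mul_of_nonneg_right (by linarith) (norm_nonneg (W K y * g)))
  have D1 : D 1 = 0 := by simpa using hD 1 1
  have R0 (f) (hf : f ∈ RA K) : D ⟨f, le hf⟩ = 0 := by
    obtain ⟨g, hg, e⟩ := dq hf y
    have : (⟨f, le hf⟩ : (RA K).topologicalClosure) = f y • 1 + Z * ⟨g, le hg⟩ := by
      ext z
      simpa [Z, W, sub_eq_iff_eq_add'] using e z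
    rw [this, map_add, map_smul, D1, key g hg, Z0]; simp
  ext f
  refine norm_le_zero_iff.1 (le_of_forall_pos_le_add fun δ δ0 => ?_)
  obtain ⟨g, hg, d⟩ := appr f.2 (show 0 < δ / (‖D‖ + 1) by positivity)
  have := D.le_opNorm (f - ⟨g, le hg⟩)
  rw [map_sub, R0 g hg, sub_zero] at this
  have b : ‖f - ⟨g, le hg⟩‖ ≤ δ / (‖D‖ + 1) := (ContinuousMap.norm_le (f.1 - g) (by positivity)).2 d
  rw [le_div_iff₀ (by positivity)] at b
  nlinarith [norm_nonneg (f - ⟨g, le hg⟩)]

lemma noint (nF : ∀ (y : K) (n : ℕ), y ∉ F K (n + 1)) : interior (K : Set ℂ) = ∅ := by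
  refine eq_empty_of_forall_notMem fun x hx => ?_
  obtain ⟨δ, δ0, hδ⟩ := Metric.nhds_basis_closedBall.mem_iff.1 (mem_interior_iff_mem_nhds.1 hx)
  obtain ⟨n, hn⟩ := exists_nat_ge δ⁻¹
  refine nF ⟨x, interior_subset hx⟩ n fun g hg => ?_
  obtain ⟨p, q, hq, e⟩ := hg
  have d : ∀ z ∈ closedBall x δ, DifferentiableAt ℂ (fun z => p.eval z / q.eval z) z := fun z hz =>
    (p.differentiable z).div (q.differentiable z) (hq ⟨z, hδ hz⟩)
  rw [e]
  refine Complex.norm_le_of_forall_mem_frontier_norm_le (U := ball x δ) (f := fun z => p.eval z / q.eval z)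
    isBounded_ball (DifferentiableOn.diffContOnCl fun z hz =>
      (d z (closure_ball_subset_closedBall hz)).differentiableWithinAt) (fun z hz => ?_)
      (subset_closure (mem_ball_self δ0))
  rw [frontier_ball x δ0.ne'] at hz
  have a := (W K x * g).norm_coe_le_norm ⟨z, hδ (sphere_subset_closedBall hz)⟩
  rw [ContinuousMap.mul_apply, norm_mul, e] at a
  replace a : δ * ‖p.eval z / q.eval z‖ ≤ ‖W K x * g‖ := mem_sphere_iff_norm.1 hz ▸ a
  rw [← le_inv_mul_iff₀ δ0] at a
  exact a.trans (mul_le_mul_of_nonneg_right (by linarith) (norm_nonneg _))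

end Pool.Agent.H.MP_06dd87_an
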