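import Pool.Agent.H.MP_06dd87_an.F

open Set Metric Filter Topology MeasureTheory TopologicalSpace
open scoped Real ENNReal Classical

namespace Pool.Agent.H.MP_06dd87_an
open Pool.Agent.H.MP_65d7a7_an

def U (S : Finset Dk) : Set ℂ := ball 0 1 \ ⋃ d ∈ S, closedBall d.1 d.2.1

lemma U_open (S : Finset Dk) : IsOpen (U S) :=
  isOpen_ball.sdiff (isClosed_biUnion_finset fun _ _ => isClosed_closedBall)

lemma mem_U {S : Finset Dk} {z : ℂ} : z ∈ U S ↔ ‖z‖ < 1 ∧ ∀ d ∈ S, d.2.1 < ‖z - d.1‖ := by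
  simp [U, dist_eq_norm]

lemma U_conn {S : Finset Dk} (h : Good S) : IsPreconnected (U S) := by
  induction S using Finset.induction_on with
  | empty => simpa [U] using (convex_ball (0 : ℂ) 1).isPreconnected
  | insert d S hd ih =>
    have m := Finset.mem_insert_self d S
    have s : ∀ e ∈ S, e ∈ insert d S := fun e => Finset.mem_insert_of_mem
    have : U (insert d S) = U S \ closedBall d.1 d.2.1 := by
      simp only [U, Finset.set_biUnion_insert, sdiff_sdiff_left, union_comm, sup_eq_union]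
    rw [this]
    refine rem (U_open S) (ih ⟨fun e he => h.r0 e (s e he), fun e he => h.t0 e (s e he), fun e he => h.t1 e (s e he),
      fun e he => h.sb e (s e he), fun e he f hf => h.dj e (s e he) f (s f hf)⟩) (h.r0 d m) fun z hz => ?_
    rw [mem_closedBall_iff_norm] at hz
    refine mem_U.2 ⟨by linarith [h.sb d m, norm_sub_norm_le z d.1], fun e he => ?_⟩
    linarith [h.dj d m e (s e he) (fun c => hd (c ▸ he)), norm_sub_le_norm_sub_add_norm_sub d.1 z e.1,
      norm_sub_rev d.1 z]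

lemma bd_or {S : Finset Dk} {z : ℂ} (h1 : ‖z‖ ≤ 1) (h2 : ∀ d ∈ S, d.2.1 ≤ ‖z - d.1‖) : z ∈ U S ∪ Bd S := by
  by_cases c : z ∈ U S
  · exact .inl c
  rw [mem_U] at c
  push Not at c
  rcases h1.lt_or_eq with e | e
  · obtain ⟨d, hd, k⟩ := c e
    exact .inr (.inr (mem_biUnion hd (mem_sphere_iff_norm.2 (k.antisymm (h2 d hd)))))
  · exact .inr (.inl (mem_sphere_zero_iff_norm.2 e))

lemma cl_U {S : Finset Dk} {z : ℂ} (h : z ∈ closure (U S)) : ‖z‖ ≤ 1 ∧ ∀ d ∈ S, d.2.1 ≤ ‖z - d.1‖ :=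
  ⟨closure_minimal (fun w hw => (mem_U.1 hw).1.le) (isClosed_le continuous_norm continuous_const) h, fun d hd =>
    closure_minimal (fun w hw => ((mem_U.1 hw).2 d hd).le)
      (isClosed_le (f := fun _ => d.2.1) (g := fun w => ‖w - d.1‖) continuous_const (by fun_prop)) h⟩

lemma Bd_null (S : Finset Dk) : volume (Bd S) = 0 :=
  measure_union_null (Measure.addHaar_sphere _ _ _)
    ((measure_biUnion_null_iff S.countable_toSet).2 fun _ _ => Measure.addHaar_sphere _ _ _)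

lemma mark {ι : Type} [Countable ι] (a : ι → ℂ) (a1 : ∀ i, ‖a i‖ ≤ 1) {r : ι → ℝ} (r0 : ∀ i, 0 ≤ r i) {β c : ℝ}
    (c0 : 0 < c) (h : ∀ A : Finset ι, ∑ i ∈ A, r i ≤ β) :
    volume ({x | ENNReal.ofReal c ≤ ∑' i, ENNReal.ofReal (r i) * ‖a i - x‖ₑ⁻¹} ∩ ball 0 1) ≤
      ENNReal.ofReal (16 * β / c) := by
  have s := summable_of_sum_le r0 h
  have β0 : 0 ≤ β := by simpa using h ∅
  rw [← Measure.restrict_apply' measurableSet_ball]
  refine (meas_ge_le_lintegral_div (by fun_prop) (by simpa) ENNReal.ofReal_ne_top).trans ?_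
  rw [ENNReal.ofReal_div_of_pos c0, lintegral_tsum fun n => by fun_prop]
  gcongr
  refine (ENNReal.tsum_le_tsum (g := fun n => ENNReal.ofReal (r n * 16)) fun n => ?_).trans ?_
  · rw [lintegral_const_mul' _ _ ENNReal.ofReal_ne_top, ENNReal.ofReal_mul (r0 n)]
    refine mul_le_mul_right ((lintegral_mono_set (ball_subset_ball' ?_)).trans ((pol _ 2).trans
      (ENNReal.ofReal_le_ofReal (by linarith [Real.pi_le_four])))) _
    rw [dist_comm, dist_zero_right]
    linarith [a1 n]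
  · rw [← ENNReal.ofReal_tsum_of_nonneg (fun n => by have := r0 n; positivity) (s.mul_right _), tsum_mul_right]
    exact ENNReal.ofReal_le_ofReal (by linarith [s.tsum_le_of_sum_le h])

theorem main : ∃ (ι : Type) (_ : Countable ι) (K : Compacts ℂ) (a : ι → ℂ) (r : ι → ℝ) (G : Set ℂ),
    Ch2 (K : Set ℂ) a r ∧ (∀ A : Finset ι, ∑ i ∈ A, r i ≤ 1 / 2) ∧ (∀ (y : K) (n : ℕ), y ∉ F K (n + 1)) ∧
      volume ((K : Set ℂ) \ G) = 0 ∧ ∀ x y : K, (x : ℂ) ∈ G → (y : ℂ) ∈ G → Gl x y := by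
  have ex (m : ℕ) (S : Finset Dk) : ∃ (L : Set ℂ) (κ : ℝ), 0 < κ ∧ κ ≤ 1 ∧ (Good S → L ⊆ U S ∧
      volume (U S \ L) ≤ ENNReal.ofReal ((1 / 2) ^ m) ∧ ∀ h : ℂ → ℂ, DifferentiableOn ℂ h (U S) →
      ∀ M, 0 < M → (∀ z ∈ U S, ‖h z‖ ≤ M) → ∀ x ∈ L, ∀ y ∈ L, ‖h x - h y‖ ≤ (2 - κ) * M) := by
    by_cases h : Good S
    · obtain ⟨L, κ, a, b, c⟩ := exL (U_open S) (U_conn h)
        ((measure_mono sdiff_subset).trans_lt measure_ball_lt_top).ne (ε := ENNReal.ofReal ((1 / 2) ^ m)) (by simp)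
      exact ⟨L, κ, a, b, fun _ => c⟩
    · exact ⟨∅, 1, one_pos, le_rfl, fun c => (h c).elim⟩
  choose L κ κ0 κ1 hL using ex
  obtain ⟨S, mo, S0, gd, kl, bd, sm⟩ := build (fun m S => κ m S * (1 / 2) ^ m / 256) fun m S => by
    have := κ0 m S; positivity
  let ι := {d : Dk // ∃ n, d ∈ S n}
  have : Countable ι := ((countable_iUnion fun n => (S n).countable_toSet).mono
    fun d hd => mem_iUnion.2 hd).to_subtype
  let a : ι → ℂ := fun i => i.1.1
  let r : ι → ℝ := fun i => i.1.2.1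
  let K : Compacts ℂ := ⟨closedBall 0 1 \ ⋃ i, ball (a i) (r i),
    (isCompact_closedBall _ _).diff (isOpen_iUnion fun _ => isOpen_ball)⟩
  have ch : Ch2 (K : Set ℂ) a r := ⟨fun ⟨d, n, h⟩ => (gd n).r0 d h, fun ⟨d, n, h⟩ ⟨e, k, h'⟩ c =>
    (gd (max n k)).dj d (mo (le_max_left _ _) h) e (mo (le_max_right _ _) h') fun q => c (Subtype.ext q),
    fun ⟨d, n, h⟩ => (gd n).sb d h, fun z => by simp [K, dist_eq_norm]⟩
  have t0 (i : ι) : 0 < i.1.2.2 := i.2.elim fun n => (gd n).t0 _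
  have t1 (i : ι) : i.1.2.2 ≤ 1 := i.2.elim fun n => (gd n).t1 _
  let J : ℕ → Finset ι := fun m => (S m).subtype _
  have mJ m (i : ι) : i ∈ J m ↔ i.1 ∈ S m := Finset.mem_subtype
  have ws m (A : Finset ι) (hA : Disjoint A (J m)) :
      ∑ i ∈ A, r i / i.1.2.2 ≤ κ m (S m) * (1 / 2) ^ m / 256 := by
    choose n hn using fun i : ι => i.2
    refine le_trans ?_ (sm m (A.sup n))
    refine (Finset.sum_map A (Function.Embedding.subtype _) fun d : Dk => d.2.1 / d.2.2).symm.trans_le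
      (Finset.sum_le_sum_of_subset_of_nonneg (fun d hd => ?_) fun d hd _ => ?_)
    · obtain ⟨i, hi, rfl⟩ := Finset.mem_map.1 hd
      exact Finset.mem_sdiff.2 ⟨mo (Finset.le_sup hi) (hn i), fun c => Finset.disjoint_left.1 hA hi ((mJ m i).2 c)⟩
    · have := (Finset.mem_sdiff.1 hd).1
      exact div_nonneg ((gd _).r0 d this).le ((gd _).t0 d this).le
  let r' : ℕ → ι → ℝ := fun m i => if i ∈ J m then 0 else r i
  have r'0 m i : 0 ≤ r' m i := by
    simp only [r']; split_ifs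
    · exact le_rfl
    · exact (ch.r0 i).le
  have rs m (A : Finset ι) : ∑ i ∈ A, r' m i ≤ κ m (S m) * (1 / 2) ^ m / 256 := by
    rw [← Finset.sum_subset (Finset.sdiff_subset (s := A) (t := J m)) fun i hi c =>
      if_pos (by by_contra d; exact c (Finset.mem_sdiff.2 ⟨hi, d⟩))]
    refine le_trans (Finset.sum_le_sum fun i hi => ?_) (ws m _ Finset.sdiff_disjoint)
    simp only [if_neg (Finset.mem_sdiff.1 hi).2]
    exact le_div_self (ch.r0 i).le (t0 i) (t1 i)
  let t : ℕ → ℂ → ℝ≥0∞ := fun m x => ∑' i, ENNReal.ofReal (r' m i) * ‖a i - x‖ₑ⁻¹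
  have p1 m : ((1 : ℝ) / 2) ^ m ≤ 1 := pow_le_one₀ (by norm_num) (by norm_num)
  refine ⟨ι, this, K, a, r, {x | ∀ᶠ m in atTop, x ∈ L m (S m) ∧ t m x < ENNReal.ofReal (κ m (S m) / 16)}, ch,
    fun A => ?_, fun y n => kl n K (fun z => ((ch.eq z).1 z.2).1)
      (fun d hd z => ((ch.eq z).1 z.2).2 ⟨d, _, hd⟩) y, ?_, fun x y hx hy => ?_⟩
  · have := rs 0 A
    simp only [r', mJ, S0, Finset.notMem_empty, if_false] at this
    linarith [κ1 0 ∅]
  · refine measure_mono_null (fun x hx => ?_) (measure_setOfPred_frequently_eq_zero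
      (p := fun m x => x ∈ (K : Set ℂ) ∧ ¬ (x ∈ L m (S m) ∧ t m x < ENNReal.ofReal (κ m (S m) / 16))) ?_)
    · exact (not_eventually.1 hx.2).mono fun m hm => ⟨hx.1, hm⟩
    refine ne_top_of_le_ne_top (b := ∑' m, ENNReal.ofReal (2 * (1 / 2) ^ m)) ?_ (ENNReal.tsum_le_tsum fun m => ?_)
    · rw [← ENNReal.ofReal_tsum_of_nonneg (fun n => by positivity) (summable_geometric_two.mul_left 2)]
      exact ENNReal.ofReal_ne_top
    have k0 := κ0 m (S m)
    calc _ ≤ volume ((U (S m) \ L m (S m)) ∪ ({x | ENNReal.ofReal (κ m (S m) / 16) ≤ t m x} ∩ ball 0 1) ∪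
          Bd (S m)) := measure_mono fun x hx => by
          obtain ⟨h1, h2⟩ := hx
          rcases bd_or (S := S m) ((ch.eq x).1 h1).1 (fun d hd => ((ch.eq x).1 h1).2 ⟨d, _, hd⟩) with e | e
          · by_cases c : x ∈ L m (S m)
            · exact .inl (.inr ⟨not_lt.1 fun d => h2 ⟨c, d⟩, e.1⟩)
            · exact .inl (.inl ⟨e, c⟩)
          · exact .inr e
      _ ≤ _ := by
          refine (measure_union_le _ _).trans ?_
          rw [Bd_null, add_zero, two_mul, ENNReal.ofReal_add (by positivity) (by positivity)]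
          refine (measure_union_le _ _).trans (add_le_add (hL m _ (gd m)).2.1 ((mark a
            (fun i => by linarith [ch.sb i, ch.r0 i]) (r'0 m) (by positivity) (rs m)).trans (le_of_eq ?_)))
          congr 1
          field_simp
          ring
  obtain ⟨m, ⟨x1, x2⟩, y1, y2⟩ := (Eventually.and hx hy).exists
  have k0 := κ0 m (S m)
  have k1 := κ1 m (S m)
  refine ⟨2 - κ m (S m) / 2, by linarith, fun g hg g1 => ?_⟩
  obtain ⟨H, dH, hH⟩ := ch.split hg g1 (J m)
  have dc z (hz : z ∈ closure (U (S m))) : DifferentiableAt ℂ H z :=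
    dH z (cl_U hz).1 fun j hj => (cl_U hz).2 j.1 ((mJ m j).1 hj)
  have b8 : κ m (S m) * (1 / 2) ^ m / 256 ≤ κ m (S m) / 8 := by nlinarith [p1 m]
  have bH z (hz : z ∈ U (S m)) : ‖H z‖ ≤ 1 + κ m (S m) / 8 := by
    refine Complex.norm_le_of_forall_mem_frontier_norm_le (U := U (S m)) (isBounded_ball.subset sdiff_subset)
      (DifferentiableOn.diffContOnCl fun z hz => (dc z hz).differentiableWithinAt) (fun w hw => ?_) (subset_closure hz)
    rw [(U_open _).frontier_eq] at hw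
    have wB := (bd_or (cl_U hw.1).1 (cl_U hw.1).2).resolve_left hw.2
    have wK : w ∈ K := wB.elim (fun e => ch.s0 e) fun e => by
      obtain ⟨d, hd, e⟩ := mem_iUnion₂.1 e
      exact ch.s1 ⟨d, m, hd⟩ e
    have q (j : ι) (hj : j ∉ J m) : j.1.2.2 ≤ ‖w - a j‖ - r j :=
      j.2.elim fun n hn => bd m n _ hn (fun c => hj ((mJ m j).2 c)) w wB
    have := hH ⟨w, wK⟩ _ (fun j hj => by linarith [q j hj, t0 j]) fun A hA => le_trans (Finset.sum_le_sum fun j hj =>
      div_le_div_of_nonneg_left (ch.r0 j).le (t0 j) (q j (Finset.disjoint_left.1 hA hj))) (ws m A hA)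
    have e := norm_sub_le (g ⟨w, wK⟩) (g ⟨w, wK⟩ - H w)
    rw [sub_sub_cancel] at e
    linarith [g.norm_coe_le_norm ⟨w, wK⟩]
  have pt (z : K) (hz : t m z < ENNReal.ofReal (κ m (S m) / 16)) : ‖g z - H z‖ ≤ κ m (S m) / 8 := by
    have q (j : ι) (hj : j ∉ J m) : 0 < ‖(z : ℂ) - a j‖ ∧
        ENNReal.ofReal (r' m j) * ‖a j - z‖ₑ⁻¹ = ENNReal.ofReal (r j / ‖(z : ℂ) - a j‖) := by
      have p := (ch.r0 j).trans_le (((ch.eq z).1 z.2).2 j)
      refine ⟨p, ?_⟩
      simp only [r', if_neg hj]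
      rw [← ofReal_norm, norm_sub_rev, ← ENNReal.ofReal_inv_of_pos p, ← ENNReal.ofReal_mul (ch.r0 j).le,
        div_eq_mul_inv]
    have q2 (j : ι) (hj : j ∉ J m) : 2 * r j ≤ ‖(z : ℂ) - a j‖ := by
      have := (ENNReal.le_tsum j).trans_lt hz
      rw [(q j hj).2, ENNReal.ofReal_lt_ofReal_iff (by positivity), div_lt_iff₀ (q j hj).1] at this
      nlinarith [(q j hj).1]
    refine hH z _ (fun j hj => by linarith [q2 j hj, ch.r0 j]) fun A hA => ?_
    have dj := fun j (hj : j ∈ A) => Finset.disjoint_left.1 hA hj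
    have := (ENNReal.sum_le_tsum A).trans hz.le
    rw [Finset.sum_congr rfl fun j hj => (q j (dj j hj)).2, ← ENNReal.ofReal_sum_of_nonneg fun j _ =>
      div_nonneg (ch.r0 j).le (norm_nonneg _), ENNReal.ofReal_le_ofReal_iff (by positivity)] at this
    refine le_trans (Finset.sum_le_sum (g := fun j => 2 * (r j / ‖(z : ℂ) - a j‖)) fun j hj => ?_) ?_
    · have := q2 j (dj j hj)
      have r0 := ch.r0 j
      rw [← mul_div_assoc, div_le_div_iff₀ (by linarith) (by linarith)]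
      nlinarith
    · rw [← Finset.mul_sum]; linarith
  have := (hL m _ (gd m)).2.2 H (fun z hz => (dc z (subset_closure hz)).differentiableWithinAt) _ (by positivity)
    bH x x1 y y1
  have e1 := norm_sub_le_norm_sub_add_norm_sub (g x) (H x) (g y)
  have e2 := norm_sub_le_norm_sub_add_norm_sub (H x) (H y) (g y)
  have e3 := norm_sub_rev (H y) (g y)
  nlinarith [pt x x2, pt y y2]

end Pool.Agent.H.MP_06dd87_an
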