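import Pool.Agent.H.MP_06dd87_an.G

open Set Metric Filter Topology MeasureTheory TopologicalSpace
open scoped Real ENNReal Classical

namespace Pool.Agent.H.MP_06dd87_an
open Pool.Agent.H.MP_65d7a7_an

lemma Ch2.vol {ι : Type} [Countable ι] {K : Set ℂ} {a : ι → ℂ} {r : ι → ℝ} (h : Ch2 K a r)
    (s : ∀ A : Finset ι, ∑ i ∈ A, r i ≤ 1 / 2) : volume K ≠ 0 := fun z => by
  have pi := Real.pi_pos
  have sm := summable_of_sum_le (fun i => (h.r0 i).le) s
  have : volume (ball (0 : ℂ) 1) ≤ volume (K ∪ ⋃ i, ball (a i) (r i)) := measure_mono fun x hx => by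
    by_contra c
    simp only [mem_union, mem_iUnion, not_or, not_exists, mem_ball_iff_norm, not_lt] at c
    exact c.1 ((h.eq x).2 ⟨(mem_ball_zero_iff.1 hx).le, c.2⟩)
  have b := this.trans ((measure_union_le _ _).trans (add_le_add le_rfl ((measure_iUnion_le _).trans
    (ENNReal.tsum_le_tsum (g := fun i => ENNReal.ofReal (π * r i)) fun i => by
      rw [volb _ (h.r0 i).le]
      refine ENNReal.ofReal_le_ofReal ?_
      have := s {i}
      rw [Finset.sum_singleton] at this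
      nlinarith [mul_pos pi (h.r0 i)]))))
  rw [z, zero_add, volb _ zero_le_one, ← ENNReal.ofReal_tsum_of_nonneg (fun i => (mul_pos pi (h.r0 i)).le)
    (sm.mul_left _), tsum_mul_left, ENNReal.ofReal_le_ofReal_iff (mul_nonneg pi.le (tsum_nonneg fun i => (h.r0 i).le))] at b
  nlinarith [sm.tsum_le_of_sum_le s]

theorem final : ∃ (K : Compacts ℂ) (a : ℕ → ℂ) (r : ℕ → ℝ), (∀ n, 0 < r n) ∧
    (∀ m n, m ≠ n → Disjoint (closedBall (a m) (r m)) (closedBall (a n) (r n))) ∧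
    (∀ n, closedBall (a n) (r n) ⊆ ball 0 1) ∧ Summable r ∧
    (K : Set ℂ) = closedBall 0 1 \ ⋃ n, ball (a n) (r n) ∧ interior (K : Set ℂ) = ∅ ∧
    (∃ x : K, (∀ y, ¬ Peak K y ↔ Gl x y) ∧ volume ((K : Set ℂ) \ (↑) '' {y | Gl x y}) = 0) ∧
    ∀ (x : K) (D : (RA K).topologicalClosure →L[ℂ] ℂ), (∀ f g, D (f * g) = f.1 x * D g + g.1 x * D f) → D = 0 := by
  obtain ⟨ι, _, K, a, r, G, ch, s, nF, v, gl⟩ := main
  have v0 := ch.vol s
  have ni := noint nF
  have : Infinite ι := by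
    by_contra c
    have := not_infinite_iff_finite.1 c
    have o : IsOpen (ball (0 : ℂ) 1 \ ⋃ i, closedBall (a i) (r i)) :=
      isOpen_ball.sdiff (isClosed_iUnion_of_finite fun _ => isClosed_closedBall)
    have e := interior_maximal (show _ ⊆ (K : Set ℂ) from fun z hz => (ch.eq z).2 ⟨(mem_ball_zero_iff.1 hz.1).le,
      fun i => (not_le.1 fun m => hz.2 (mem_iUnion.2 ⟨i, mem_closedBall_iff_norm.2 m⟩)).le⟩) o
    refine v0 (measure_mono_null (t := sphere 0 1 ∪ ⋃ i, sphere (a i) (r i)) (fun z hz => ?_)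
      (measure_union_null (Measure.addHaar_sphere _ _ _) (measure_iUnion_null fun _ => Measure.addHaar_sphere _ _ _)))
    by_contra d
    simp only [mem_union, mem_iUnion, not_or, not_exists, mem_sphere_iff_norm, sub_zero] at d
    have q := (ch.eq z).1 hz
    exact (ni ▸ e ⟨mem_ball_zero_iff.2 (q.1.lt_of_ne d.1), fun m => (mem_iUnion.1 m).elim fun i hi =>
      d.2 i ((mem_closedBall_iff_norm.1 hi).antisymm (q.2 i))⟩ : z ∈ (∅ : Set ℂ))
  obtain ⟨_⟩ := nonempty_denumerable ι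
  let e := (Denumerable.eqv ι).symm
  have ex (w : ℂ) : ∃ x : K, (x : ℂ) ∈ G ∧ (x : ℂ) ≠ w := by
    by_contra! c
    refine v0 (measure_mono_null (t := ((K : Set ℂ) \ G) ∪ {w}) (fun z hz => ?_)
      (measure_union_null v (measure_singleton w)))
    by_cases m : z ∈ G
    · exact .inr (c ⟨z, hz⟩ m)
    · exact .inl ⟨hz, m⟩
  obtain ⟨x, hx, -⟩ := ex 0
  refine ⟨K, a ∘ e, r ∘ e, fun n => ch.r0 _, fun m n h => closedBall_disjoint_closedBall
    (by rw [dist_eq_norm]; exact ch.dj _ _ (e.injective.ne h)), fun n => closedBall_subset_ball'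
    (by rw [dist_zero_right, add_comm]; exact ch.sb _),
    e.summable_iff.2 (summable_of_sum_le (fun i => (ch.r0 i).le) s), ?_, ni, ⟨x, fun y => ⟨fun h => ?_, fun h => ?_⟩,
    measure_mono_null (fun z hz => mem_sdiff_of_mem hz.1 fun m => hz.2 ⟨⟨z, hz.1⟩, gl _ _ hx m, rfl⟩) v⟩,
    fun x => noder (nF x)⟩
  · ext z
    rw [ch.eq, e.surjective.forall]
    simp [dist_eq_norm]
  · obtain ⟨p, m, c⟩ := browder h v
    exact (gl x p hx (by by_contra d; exact m ⟨p.2, d⟩)).trans (Gl.symm ⟨1, one_lt_two, c⟩)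
  · obtain ⟨w, hw, n⟩ := ex y
    exact (h.symm.trans (gl x w hx hw)).nonpeak fun c => n (congrArg _ c)

lemma Gl_iff {K : Compacts ℂ} {x y : K} :
    (∃ c < 2, ∀ f ∈ (RA K).topologicalClosure, ‖f‖ ≤ 1 → ‖f x - f y‖ ≤ c) ↔ Gl x y :=
  exists_congr fun _ => and_congr_right fun _ => ⟨fun h f hf => h f ((RA K).le_topologicalClosure hf),
    fun h _ hf f1 => h.ext hf fun z => (ContinuousMap.norm_coe_le_norm _ z).trans f1⟩

end Pool.Agent.H.MP_06dd87_an
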